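import Pool.Agent.Lib.MP_684ec1_an.MD.Spec

/-!
# MP_684ec1, module SEG: the variation of `arctan |p|` on a segment
-/

set_option autoImplicit false

namespace Pool.Agent.Lib.MP684ec1.MD

open Complex Polynomial MeasureTheory intervalIntegral
open Pool.Agent.Lib.MP684ec1.HP

namespace SEGM

/-- the real part of a complex polynomial on the real line -/
theorem re_poly (Q : ℂ[X]) (m : ℕ) (hQ : Q.natDegree ≤ m) :
    ∃ q : ℝ[X], q.natDegree ≤ m ∧ ∀ t : ℝ, q.eval t = (Q.eval (t : ℂ)).re := by
  refine ⟨∑ j ∈ Finset.range (m + 1), Polynomial.C (Q.coeff j).re * Polynomial.X ^ j, ?_, ?_⟩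
  · refine Polynomial.natDegree_sum_le_of_forall_le _ _ fun j hj => ?_
    refine (Polynomial.natDegree_C_mul_X_pow_le _ _).trans ?_
    have := Finset.mem_range.mp hj
    omega
  · intro t
    rw [Polynomial.eval_finset_sum, Polynomial.eval_eq_sum_range' (Nat.lt_succ_of_le hQ),
      Complex.re_sum]
    refine Finset.sum_congr rfl fun j _ => ?_
    rw [Polynomial.eval_mul, Polynomial.eval_C, Polynomial.eval_pow, Polynomial.eval_X,
      ← Complex.ofReal_pow, Complex.re_mul_ofReal]

/-- `⟨P, D v⟩ = |P|² Re (D / P · v)` -/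
theorem inner_eq (P D v : ℂ) (h : P ≠ 0) :
    inner ℝ P (D * v) = ‖P‖ ^ 2 * (D / P * v).re := by
  have h1 : D / P * v = (starRingEnd ℂ P * (D * v)) * ((Complex.normSq P)⁻¹ : ℝ) := by
    rw [div_eq_mul_inv, Complex.inv_def]
    ring
  have h2 : (Complex.normSq P) ≠ 0 := by
    rw [Ne, Complex.normSq_eq_zero]
    exact h
  rw [h1, Complex.re_mul_ofReal, ← Complex.normSq_eq_norm_sq, Complex.inner,
    mul_comm (Complex.normSq P), inv_mul_cancel_right₀ h2]
  congr 1
  ring

/-- the derivative of `arctan |p|` along a line -/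
theorem der (p : ℂ[X]) (c v : ℂ) (t : ℝ) (h : p.eval (c + t * v) ≠ 0) :
    HasDerivAt (fun s : ℝ => Real.arctan ‖p.eval (c + s * v)‖)
      (wt p (c + t * v) * (lg p (c + t * v) * v).re) t := by
  have h0 : HasDerivAt (fun s : ℝ => c + (s : ℂ) * v) v t := by
    have h0' := ((Complex.ofRealCLM.hasDerivAt (x := t)).mul_const v).const_add c
    simpa using h0'
  have h1 : HasDerivAt (fun s : ℝ => p.eval (c + (s : ℂ) * v))
      (p.derivative.eval (c + t * v) * v) t := by
    have h1' := HasDerivAt.comp t (p.hasDerivAt (c + (t : ℂ) * v)) h0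
    exact h1'
  have hpos : 0 < ‖p.eval (c + t * v)‖ := norm_pos_iff.mpr h
  have h3 : HasDerivAt (fun s : ℝ => ‖p.eval (c + (s : ℂ) * v)‖)
      ((2 * inner ℝ (p.eval (c + t * v)) (p.derivative.eval (c + t * v) * v)) /
        (2 * ‖p.eval (c + t * v)‖)) t := by
    have h3' := h1.norm_sq.sqrt (by positivity)
    simp only [Real.sqrt_sq (norm_nonneg _)] at h3'
    exact h3'
  refine h3.arctan.congr_deriv ?_
  rw [inner_eq _ _ _ h]
  unfold wt lg
  field_simp

end SEGM

open SEGM in
theorem specSEG (hTAY : SpecTAY) (hVAR : SpecVAR) : SpecSEG := by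
  intro p z₀ c v r a b m hp hr hz hv hab hseg
  obtain ⟨T, hTm, hT⟩ := hTAY p z₀ r m hp hr hz
  have hQ : (T.comp (Polynomial.C c + Polynomial.X * Polynomial.C v) * Polynomial.C v).natDegree
      ≤ m := by
    refine (Polynomial.natDegree_mul_C_le _ _).trans ?_
    refine Polynomial.natDegree_comp_le.trans ?_
    have h1 : (Polynomial.C c + Polynomial.X * Polynomial.C v : ℂ[X]).natDegree ≤ 1 := by
      refine (Polynomial.natDegree_add_le _ _).trans ?_
      rw [Polynomial.natDegree_C]
      refine max_le (by omega) ?_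
      exact (Polynomial.natDegree_mul_C_le _ _).trans Polynomial.natDegree_X_le
    calc T.natDegree * _ ≤ m * 1 := Nat.mul_le_mul hTm h1
      _ = m := mul_one m
  obtain ⟨q, hqm, hq⟩ := re_poly _ m hQ
  have hq' : ∀ t : ℝ, q.eval t = (T.eval (c + t * v) * v).re := by
    intro t
    rw [hq t]
    simp only [Polynomial.eval_mul, Polynomial.eval_comp, Polynomial.eval_add, Polynomial.eval_C,
      Polynomial.eval_X]
  have hqe : ∀ t : ℝ, q.eval t + ((lg p (c + t * v) - T.eval (c + t * v)) * v).re =
      (lg p (c + t * v) * v).re := by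
    intro t
    rw [hq' t, ← Complex.add_re]
    congr 1
    ring
  have hcp : Continuous fun t : ℝ => p.eval (c + t * v) :=
    p.continuous.comp (continuous_const.add (Complex.continuous_ofReal.mul continuous_const))
  have hcd : Continuous fun t : ℝ => p.derivative.eval (c + t * v) :=
    p.derivative.continuous.comp
      (continuous_const.add (Complex.continuous_ofReal.mul continuous_const))
  have hcT : Continuous fun t : ℝ => T.eval (c + t * v) :=
    T.continuous.comp (continuous_const.add (Complex.continuous_ofReal.mul continuous_const))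
  have hne : ∀ t ∈ Set.Icc a b, p.eval (c + t * v) ≠ 0 := fun t ht => (hT _ (hseg t ht)).1
  have hcw : Continuous fun t : ℝ => wt p (c + t * v) := by
    unfold wt
    exact hcp.norm.div (continuous_const.add (hcp.norm.pow 2)) (fun t => by positivity)
  have hcl : ContinuousOn (fun t : ℝ => lg p (c + t * v)) (Set.Icc a b) := by
    unfold lg
    exact hcd.continuousOn.div hcp.continuousOn hne
  have hce : ContinuousOn (fun t : ℝ => ((lg p (c + t * v) - T.eval (c + t * v)) * v).re)
      (Set.Icc a b) :=
    Complex.continuous_re.comp_continuousOn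
      ((hcl.sub hcT.continuousOn).mul continuousOn_const)
  have key := hVAR (fun t => Real.arctan ‖p.eval (c + t * v)‖) (fun t => wt p (c + t * v))
    (fun t => ((lg p (c + t * v) - T.eval (c + t * v)) * v).re) q m a b
    (p.natDegree * (1 / 2) ^ m / r) hab hqm hcw.continuousOn hce ?_ ?_ ?_ ?_
  · refine le_trans (le_of_eq ?_) key
    refine intervalIntegral.integral_congr fun t _ => ?_
    show |((wt p (c + t * v) : ℂ) * lg p (c + t * v) * v).re| = |wt p (c + t * v) *
      (q.eval t + ((lg p (c + t * v) - T.eval (c + t * v)) * v).re)|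
    rw [hqe t, mul_assoc, Complex.re_ofReal_mul]
  · intro t ht
    show HasDerivAt (fun s : ℝ => Real.arctan ‖p.eval (c + s * v)‖) (wt p (c + t * v) *
      (q.eval t + ((lg p (c + t * v) - T.eval (c + t * v)) * v).re)) t
    rw [hqe t]
    exact der p c v t (hne t ht)
  · intro t ht
    refine (Complex.abs_re_le_norm _).trans ?_
    rw [norm_mul, hv, mul_one]
    exact (hT _ (hseg t ht)).2
  · intro t _
    unfold wt
    constructor
    · positivity
    · rw [div_le_iff₀ (by positivity)]
      nlinarith [sq_nonneg (‖p.eval (c + t * v)‖ - 1)]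
  · intro t _
    exact ⟨Real.arctan_nonneg.mpr (norm_nonneg _), (Real.arctan_lt_pi_div_two _).le⟩

end Pool.Agent.Lib.MP684ec1.MD
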