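import Pool.Agent.Lib.MP_684ec1_an.MD.Spec

/-!
# Module FIN: the theorem
-/

set_option autoImplicit false

namespace Pool.Agent.Lib.MP684ec1.MD

open Complex Polynomial MeasureTheory intervalIntegral
open Pool.Agent.Lib.MP684ec1.HP

namespace FINM

theorem log2_gt : (1 / 2 : ℝ) < Real.log 2 := by
  have h := Real.log_two_gt_d9
  linarith

theorem logb_le (n : ℕ) : Real.logb 2 n ≤ 2 * Real.log n := by
  have h0 : 0 ≤ Real.log n := Real.log_natCast_nonneg n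
  have h1 := log2_gt
  unfold Real.logb
  rw [div_le_iff₀ (by linarith)]
  nlinarith

theorem logb_nonneg (n : ℕ) : 0 ≤ Real.logb 2 n := by
  have h0 : 0 ≤ Real.log n := Real.log_natCast_nonneg n
  have h1 := log2_gt
  unfold Real.logb
  exact div_nonneg h0 (by linarith)

theorem clog_le (n : ℕ) : (Nat.clog 2 n : ℝ) ≤ 2 * Real.log n + 1 := by
  have h1 := Real.natCeil_logb_natCast 2 n
  have h2 : (⌈Real.logb ((2 : ℕ) : ℝ) n⌉₊ : ℝ) < Real.logb ((2 : ℕ) : ℝ) n + 1 := by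
    apply Nat.ceil_lt_add_one
    have := logb_nonneg n
    simpa using this
  rw [h1] at h2
  have h3 := logb_le n
  have h4 : Real.logb ((2 : ℕ) : ℝ) n = Real.logb 2 n := by norm_num
  rw [h4] at h2
  linarith

/-- the level `m` -/
theorem exists_m (n : ℕ) (d : ℝ) (hn : 0 < n) (hd : 1 ≤ d) : ∃ m : ℕ,
    (n : ℝ) ^ (1 / d) ≤ (2 : ℝ) ^ (m : ℝ) ∧ (2 : ℝ) ^ (m : ℝ) ≤ 2 * (n : ℝ) ^ (1 / d) ∧
    (m : ℝ) ≤ 2 * Real.log n + 1 := by
  have hd0 : 0 < d := by linarith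
  have hL0 : 0 ≤ Real.logb 2 n / d := div_nonneg (logb_nonneg n) hd0.le
  have hn' : (0 : ℝ) < n := by exact_mod_cast hn
  have hX : (n : ℝ) ^ (1 / d) = (2 : ℝ) ^ (Real.logb 2 n / d) := by
    have h1 : (2 : ℝ) ^ (Real.logb 2 n) = n := Real.rpow_logb (by norm_num) (by norm_num) hn'
    calc (n : ℝ) ^ (1 / d) = ((2 : ℝ) ^ (Real.logb 2 n)) ^ (1 / d) := by rw [h1]
      _ = (2 : ℝ) ^ (Real.logb 2 n * (1 / d)) := by rw [← Real.rpow_mul (by norm_num)]
      _ = (2 : ℝ) ^ (Real.logb 2 n / d) := by rw [mul_one_div]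
  have h2 : (⌈Real.logb 2 n / d⌉₊ : ℝ) < Real.logb 2 n / d + 1 := Nat.ceil_lt_add_one hL0
  have h3 : Real.logb 2 n / d ≤ (⌈Real.logb 2 n / d⌉₊ : ℝ) := Nat.le_ceil _
  refine ⟨⌈Real.logb 2 n / d⌉₊, ?_, ?_, ?_⟩
  · rw [hX]
    exact Real.rpow_le_rpow_of_exponent_le (by norm_num) h3
  · rw [hX]
    have h4 : (2 : ℝ) * (2 : ℝ) ^ (Real.logb 2 n / d) = (2 : ℝ) ^ (Real.logb 2 n / d + 1) := by
      rw [Real.rpow_add (by norm_num), Real.rpow_one, mul_comm]
    rw [h4]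
    exact Real.rpow_le_rpow_of_exponent_le (by norm_num) h2.le
  · have h4 : Real.logb 2 n / d ≤ Real.logb 2 n := div_le_self (logb_nonneg n) hd
    have h5 := logb_le n
    linarith

theorem term2 (n m k : ℕ) (d : ℝ) (hn : 0 < n) (hd : 1 ≤ d) (hd2 : d ≤ 2) (hk : k ≤ m)
    (h : (2 : ℝ) ^ (m : ℝ) ≤ 2 * (n : ℝ) ^ (1 / d)) :
    (2 : ℝ) ^ (d * k) / 2 ^ k ≤ 2 * (n : ℝ) ^ (1 - 1 / d) := by
  have hd0 : 0 < d := by linarith
  have hn' : (0 : ℝ) < n := by exact_mod_cast hn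
  have hkm : (k : ℝ) ≤ m := by exact_mod_cast hk
  have hX0 : 0 ≤ (n : ℝ) ^ (1 / d) := (Real.rpow_pos_of_pos hn' _).le
  calc (2 : ℝ) ^ (d * k) / 2 ^ k = (2 : ℝ) ^ (d * k) / (2 : ℝ) ^ (k : ℝ) := by
        rw [Real.rpow_natCast]
    _ = (2 : ℝ) ^ (d * k - k) := by rw [Real.rpow_sub (by norm_num)]
    _ ≤ (2 : ℝ) ^ ((m : ℝ) * (d - 1)) := by
        apply Real.rpow_le_rpow_of_exponent_le (by norm_num)
        nlinarith
    _ = ((2 : ℝ) ^ (m : ℝ)) ^ (d - 1) := by rw [Real.rpow_mul (by norm_num)]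
    _ ≤ (2 * (n : ℝ) ^ (1 / d)) ^ (d - 1) :=
        Real.rpow_le_rpow (Real.rpow_nonneg (by norm_num) _) h (by linarith)
    _ = 2 ^ (d - 1) * ((n : ℝ) ^ (1 / d)) ^ (d - 1) := Real.mul_rpow (by norm_num) hX0
    _ = 2 ^ (d - 1) * (n : ℝ) ^ (1 - 1 / d) := by
        rw [← Real.rpow_mul hn'.le]
        congr 2
        field_simp
    _ ≤ 2 * (n : ℝ) ^ (1 - 1 / d) := by
        apply mul_le_mul_of_nonneg_right _ (Real.rpow_pos_of_pos hn' _).le
        calc (2 : ℝ) ^ (d - 1) ≤ (2 : ℝ) ^ (1 : ℝ) :=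
              Real.rpow_le_rpow_of_exponent_le (by norm_num) (by linarith)
          _ = 2 := Real.rpow_one 2

theorem term3 (n m : ℕ) (d : ℝ) (hn : 0 < n) (hd : 1 ≤ d) (hd2 : d ≤ 2)
    (h : (n : ℝ) ^ (1 / d) ≤ (2 : ℝ) ^ (m : ℝ)) :
    (n : ℝ) * ((2 : ℝ) ^ (d * m) / 4 ^ m) ≤ ((n : ℝ) ^ (1 - 1 / d)) ^ 2 := by
  have hd0 : 0 < d := by linarith
  have hn' : (0 : ℝ) < n := by exact_mod_cast hn
  have hX0 : 0 < (n : ℝ) ^ (1 / d) := Real.rpow_pos_of_pos hn' _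
  have h4 : (4 : ℝ) ^ m = (2 : ℝ) ^ ((2 : ℝ) * m) := by
    rw [Real.rpow_mul (by norm_num), Real.rpow_natCast]
    norm_num
  have h5 : (2 : ℝ) ^ (d * m) / 4 ^ m ≤ ((n : ℝ) ^ (1 / d)) ^ (d - 2) := by
    calc (2 : ℝ) ^ (d * m) / 4 ^ m = (2 : ℝ) ^ (d * m - 2 * m) := by
          rw [h4, Real.rpow_sub (by norm_num)]
      _ = (2 : ℝ) ^ ((m : ℝ) * (d - 2)) := by
          congr 1
          ring
      _ = ((2 : ℝ) ^ (m : ℝ)) ^ (d - 2) := by rw [Real.rpow_mul (by norm_num)]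
      _ ≤ ((n : ℝ) ^ (1 / d)) ^ (d - 2) :=
          Real.rpow_le_rpow_of_nonpos hX0 h (by linarith)
  calc (n : ℝ) * ((2 : ℝ) ^ (d * m) / 4 ^ m) ≤ (n : ℝ) * ((n : ℝ) ^ (1 / d)) ^ (d - 2) :=
        mul_le_mul_of_nonneg_left h5 hn'.le
    _ = (n : ℝ) ^ (1 : ℝ) * (n : ℝ) ^ (1 / d * (d - 2)) := by
        rw [← Real.rpow_mul hn'.le, Real.rpow_one]
    _ = (n : ℝ) ^ (1 + 1 / d * (d - 2)) := by rw [Real.rpow_add hn']
    _ = (n : ℝ) ^ ((1 - 1 / d) * 2) := by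
        congr 1
        field_simp
        ring
    _ = ((n : ℝ) ^ (1 - 1 / d)) ^ 2 := by
        rw [Real.rpow_mul hn'.le]
        norm_num

end FINM

open FINM in
theorem specFIN (hCSA : SpecCSA) (hWHI : SpecWHI) (hCNB : SpecCNB) (hVOL : SpecVOL) : SpecFIN := by
  refine ⟨1000, by norm_num, ?_⟩
  intro p A d hn hA hd hd2 hBx
  have hp : p ≠ 0 := by
    intro h
    rw [h] at hn
    simp at hn
  obtain ⟨m, hm1, hm2, hm3⟩ := exists_m p.natDegree d hn hd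
  set n := p.natDegree with hndef
  have hn' : (0 : ℝ) < n := by exact_mod_cast hn
  have hn1 : (1 : ℝ) ≤ n := by exact_mod_cast hn
  set l : ℝ := Real.log n with hl
  have hl0 : 0 ≤ l := Real.log_natCast_nonneg n
  set E : ℝ := (n : ℝ) ^ (1 - 1 / d) with hE
  have hE1 : 1 ≤ E := by
    apply Real.one_le_rpow hn1
    have : 1 / d ≤ 1 := by
      rw [div_le_one (by linarith)]
      exact hd
    linarith
  have hpi := Real.pi_lt_d2
  have hpi3 := Real.pi_gt_three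
  have hB0 : 0 ≤ Bn p := by
    unfold Bn
    positivity
  have hB : Bn p ≤ 12 * (1 + l) := by
    unfold Bn
    have h1 := clog_le n
    have h2 : ((Nat.clog 2 n : ℝ) + 1) * Real.pi ≤ (2 * l + 2) * 3.15 := by
      apply mul_le_mul (by linarith) hpi.le (by linarith) (by linarith)
    rw [← hndef]
    linarith
  have hU : ∀ k : ℕ, ((Un p k).ncard : ℝ) ≤ 9 * (A * (2 : ℝ) ^ (d * k)) := by
    intro k
    have h1 : ((Un p k).ncard : ℝ) ≤ ((9 * (Bx p k).ncard : ℕ) : ℝ) := by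
      exact_mod_cast (hCNB p k hp).2
    rw [Nat.cast_mul] at h1
    have h2 := hBx k
    push_cast at h1
    linarith
  -- the second term
  have hT2 : ∑ k ∈ Finset.range m, 2 * Bn p * ((Un p k).ncard : ℝ) / 2 ^ k ≤
      m * (36 * A * Bn p * E) := by
    have h1 : ∀ k ∈ Finset.range m, 2 * Bn p * ((Un p k).ncard : ℝ) / 2 ^ k ≤
        36 * A * Bn p * E := by
      intro k hk
      have hk' := (Finset.mem_range.mp hk).le
      have h2 := term2 n m k d hn hd hd2 hk' hm2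
      calc 2 * Bn p * ((Un p k).ncard : ℝ) / 2 ^ k
          ≤ 2 * Bn p * (9 * (A * (2 : ℝ) ^ (d * k))) / 2 ^ k := by
            apply div_le_div_of_nonneg_right _ (by positivity)
            exact mul_le_mul_of_nonneg_left (hU k) (by positivity)
        _ = 18 * A * Bn p * ((2 : ℝ) ^ (d * k) / 2 ^ k) := by ring
        _ ≤ 18 * A * Bn p * (2 * E) := mul_le_mul_of_nonneg_left h2 (by positivity)
        _ = 36 * A * Bn p * E := by ring
    calc ∑ k ∈ Finset.range m, 2 * Bn p * ((Un p k).ncard : ℝ) / 2 ^ k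
        ≤ ∑ k ∈ Finset.range m, 36 * A * Bn p * E := Finset.sum_le_sum h1
      _ = m * (36 * A * Bn p * E) := by
          rw [Finset.sum_const, Finset.card_range, nsmul_eq_mul]
  -- the third term
  have hT3 : ∫ z in Dk p m, sph p z ≤ 3 * Real.pi * A * E := by
    obtain ⟨hv1, hv2⟩ := hVOL p m
    have h1 := hCSA p (Dk p m) (((Un p m).ncard : ℝ) / 4 ^ m) hn (by positivity) hv1
      (fun z hz => by
        rw [mem_closedBall_zero_iff]
        exact hz.1) hv2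
    refine h1.trans ?_
    have h2 := term3 n m d hn hd hd2 hm1
    have h3 : (n : ℝ) * Real.pi * (((Un p m).ncard : ℝ) / 4 ^ m) ≤ (3 * Real.pi * A * E) ^ 2 := by
      calc (n : ℝ) * Real.pi * (((Un p m).ncard : ℝ) / 4 ^ m)
          ≤ (n : ℝ) * Real.pi * (9 * (A * (2 : ℝ) ^ (d * m)) / 4 ^ m) := by
            apply mul_le_mul_of_nonneg_left _ (by positivity)
            exact div_le_div_of_nonneg_right (hU m) (by positivity)
        _ = 9 * Real.pi * A * ((n : ℝ) * ((2 : ℝ) ^ (d * m) / 4 ^ m)) := by ring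
        _ ≤ 9 * Real.pi * A * E ^ 2 := mul_le_mul_of_nonneg_left h2 (by positivity)
        _ ≤ 9 * Real.pi * A * E ^ 2 * (Real.pi * A) := by
            apply le_mul_of_one_le_right (by positivity)
            nlinarith
        _ = (3 * Real.pi * A * E) ^ 2 := by ring
    exact Real.sqrt_le_iff.mpr ⟨by positivity, h3⟩
  have hW := hWHI p m hn
  have hA0 : 0 < A := by linarith
  have hAE : 1 ≤ A * E := by nlinarith
  have e1 : 9 * Bn p ≤ A * E * (108 * (1 + l) ^ 2) := by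
    have : 9 * Bn p ≤ 108 * (1 + l) ^ 2 := by nlinarith
    calc 9 * Bn p ≤ 1 * (108 * (1 + l) ^ 2) := by linarith
      _ ≤ A * E * (108 * (1 + l) ^ 2) := mul_le_mul_of_nonneg_right hAE (by positivity)
  have e2 : (m : ℝ) * (36 * A * Bn p * E) ≤ A * E * (864 * (1 + l) ^ 2) := by
    have h1 : (m : ℝ) * Bn p ≤ (2 * (1 + l)) * (12 * (1 + l)) :=
      mul_le_mul (by linarith) hB hB0 (by linarith)
    calc (m : ℝ) * (36 * A * Bn p * E) = A * E * (36 * (m * Bn p)) := by ring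
      _ ≤ A * E * (36 * ((2 * (1 + l)) * (12 * (1 + l)))) := by
          apply mul_le_mul_of_nonneg_left _ (by positivity)
          linarith
      _ = A * E * (864 * (1 + l) ^ 2) := by ring
  have e3 : 3 * Real.pi * A * E ≤ A * E * (12 * (1 + l) ^ 2) := by
    have h1 : 3 * Real.pi ≤ 12 * (1 + l) ^ 2 := by nlinarith
    calc 3 * Real.pi * A * E = A * E * (3 * Real.pi) := by ring
      _ ≤ A * E * (12 * (1 + l) ^ 2) := mul_le_mul_of_nonneg_left h1 (by positivity)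
  calc ∫ z in Metric.closedBall (0 : ℂ) 1, sph p z
      ≤ 9 * Bn p + (∑ k ∈ Finset.range m, 2 * Bn p * ((Un p k).ncard : ℝ) / 2 ^ k) +
        ∫ z in Dk p m, sph p z := hW
    _ ≤ A * E * (108 * (1 + l) ^ 2) + A * E * (864 * (1 + l) ^ 2) +
        A * E * (12 * (1 + l) ^ 2) := by
        have := hT2.trans e2
        have := hT3.trans e3
        linarith
    _ ≤ 1000 * A * E * (1 + l) ^ 2 := by
        have : 0 ≤ A * E * (1 + l) ^ 2 := by positivity
        nlinarith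

end Pool.Agent.Lib.MP684ec1.MD
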