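import Pool.Agent.Lib.MP_684ec1_an.MD.Spec

/-!
# ARE: the area of the image
-/

set_option autoImplicit false

namespace Pool.Agent.Lib.MP684ec1.MD

open Complex Polynomial MeasureTheory Set Filter Topology
open Pool.Agent.Lib.MP684ec1.HP
open scoped ENNReal

noncomputable section

namespace AREM

theorem det_mul (κ : ℂ) : ((ContinuousLinearMap.mul ℝ ℂ) κ).det = Complex.normSq κ := by
  have : (((ContinuousLinearMap.mul ℝ ℂ) κ : ℂ →L[ℝ] ℂ) : ℂ →ₗ[ℝ] ℂ) = Algebra.lmul ℝ ℂ κ := by
    ext
    simp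
  unfold ContinuousLinearMap.det
  rw [this, ← Algebra.norm_apply, Algebra.norm_complex_apply]

/-- the real derivative of a complex differentiable function -/
theorem real_deriv {f : ℂ → ℂ} {d z : ℂ} (h : HasDerivAt f d z) :
    HasFDerivAt f ((ContinuousLinearMap.mul ℝ ℂ) d) z := by
  have h1 := h.hasFDerivAt.restrictScalars ℝ
  have h2 : (ContinuousLinearMap.restrictScalars ℝ (ContinuousLinearMap.toSpanSingleton ℂ d) :
      ℂ →L[ℝ] ℂ) = (ContinuousLinearMap.mul ℝ ℂ) d := by
    refine ContinuousLinearMap.ext fun x => ?_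
    change x • d = d * x
    rw [smul_eq_mul, mul_comm]
  rw [h2] at h1
  exact h1

/-- change of variables for an injective complex differentiable map -/
theorem change {A : Set ℂ} (hA : MeasurableSet A) {f f' : ℂ → ℂ}
    (hf : ∀ z ∈ A, HasDerivAt f (f' z) z) (hi : InjOn f A) (G : ℂ → ℝ≥0∞) :
    MeasurableSet (f '' A) ∧
    ∫⁻ w in f '' A, G w = ∫⁻ z in A, ENNReal.ofReal (‖f' z‖ ^ 2) * G (f z) := by
  have hd : ∀ z ∈ A, HasFDerivWithinAt f ((ContinuousLinearMap.mul ℝ ℂ) (f' z)) A z := by
    intro z hz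
    exact (real_deriv (hf z hz)).hasFDerivWithinAt
  refine ⟨measurable_image_of_fderivWithin hA hd hi, ?_⟩
  rw [lintegral_image_eq_lintegral_abs_det_fderiv_mul volume hA hd hi G]
  refine setLIntegral_congr_fun hA fun z _ => ?_
  rw [det_mul, abs_of_nonneg (Complex.normSq_nonneg _), Complex.normSq_eq_norm_sq]

/-- radial functions -/
theorem radial (g : ℝ → ℝ≥0∞) (hg : Measurable g) :
    ∫⁻ z : ℂ, g (‖z‖ ^ 2) = ENNReal.ofReal Real.pi * ∫⁻ y in Ioi (0 : ℝ), g y := by
  rw [← Complex.lintegral_comp_polarCoord_symm]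
  have h1 : ∀ p : ℝ × ℝ, ENNReal.ofReal p.1 • g (‖Complex.polarCoord.symm p‖ ^ 2)
      = ENNReal.ofReal p.1 * g (p.1 ^ 2) := by
    intro p
    rw [Complex.norm_polarCoord_symm, sq_abs, smul_eq_mul]
  simp_rw [h1]
  have ht : polarCoord.target = Ioi (0 : ℝ) ×ˢ Ioo (-Real.pi) Real.pi := rfl
  rw [ht, Measure.volume_eq_prod, ← Measure.prod_restrict]
  have hm : Measurable fun p : ℝ × ℝ => ENNReal.ofReal p.1 * g (p.1 ^ 2) := by fun_prop
  rw [lintegral_prod _ hm.aemeasurable]
  have h2 : ∀ x : ℝ, ∫⁻ _ : ℝ in Ioo (-Real.pi) Real.pi, ENNReal.ofReal x * g (x ^ 2)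
      = ENNReal.ofReal x * g (x ^ 2) * ENNReal.ofReal (2 * Real.pi) := by
    intro x
    rw [setLIntegral_const, Real.volume_Ioo]
    congr 2
    ring
  simp_rw [h2]
  have himg : (fun r : ℝ => r ^ 2) '' Ioi (0 : ℝ) = Ioi 0 := by
    ext y
    simp only [mem_image, mem_Ioi]
    constructor
    · rintro ⟨r, hr, rfl⟩
      positivity
    · intro hy
      exact ⟨Real.sqrt y, Real.sqrt_pos.2 hy, Real.sq_sqrt hy.le⟩
  have h3 := lintegral_image_eq_lintegral_abs_deriv_mul (s := Ioi (0 : ℝ)) (f := fun r : ℝ => r ^ 2)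
    (f' := fun r => 2 * r) measurableSet_Ioi
    (fun x _ => by simpa using (hasDerivAt_pow 2 x).hasDerivWithinAt)
    (by
      intro a ha b hb hab
      simp only [mem_Ioi] at ha hb
      simp only at hab
      nlinarith [mul_pos ha hb, sq_nonneg (a - b)]) g
  rw [himg] at h3
  rw [h3, ← lintegral_const_mul _ (by fun_prop)]
  refine setLIntegral_congr_fun measurableSet_Ioi fun r hr => ?_
  simp only [mem_Ioi] at hr
  have e1 : |2 * r| = 2 * r := abs_of_pos (by linarith)
  simp only [e1]
  rw [mul_right_comm, ← ENNReal.ofReal_mul hr.le, ← mul_assoc (ENNReal.ofReal Real.pi),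
    ← ENNReal.ofReal_mul Real.pi_pos.le]
  congr 2
  ring

/-- the spherical density -/
def Gs (w : ℂ) : ℝ≥0∞ := ENNReal.ofReal (1 / (1 + ‖w‖ ^ 2) ^ 2)

theorem meas_Gs : Measurable Gs := by
  unfold Gs
  fun_prop

theorem int_half : ∫⁻ y in Ioi (0 : ℝ), ENNReal.ofReal (1 / (1 + y) ^ 2) = 1 := by
  have hd : ∀ x ∈ Ioi (0 : ℝ), HasDerivAt (fun y : ℝ => -(1 + y)⁻¹) (1 / (1 + x) ^ 2) x := by
    intro x hx
    have hx' : (0 : ℝ) < 1 + x := by
      have : (0 : ℝ) < x := hx
      linarith
    have h1 : HasDerivAt (fun y : ℝ => 1 + y) 1 x := by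
      simpa using (hasDerivAt_id x).const_add 1
    have h2 := (h1.inv hx'.ne').neg
    refine h2.congr_deriv ?_
    ring
  have hc : ContinuousWithinAt (fun y : ℝ => -(1 + y)⁻¹) (Ici 0) 0 := by
    refine ContinuousAt.continuousWithinAt ?_
    have : ContinuousAt (fun y : ℝ => (1 + y)⁻¹) 0 :=
      ContinuousAt.inv₀ (by fun_prop) (by norm_num)
    exact this.neg
  have hp : ∀ x ∈ Ioi (0 : ℝ), 0 ≤ 1 / (1 + x) ^ 2 := fun x _ => by positivity
  have ht : Tendsto (fun y : ℝ => -(1 + y)⁻¹) atTop (𝓝 0) := by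
    have h1 : Tendsto (fun y : ℝ => 1 + y) atTop atTop := tendsto_atTop_add_const_left _ _ tendsto_id
    simpa using (tendsto_inv_atTop_zero.comp h1).neg
  have hi := integrableOn_Ioi_deriv_of_nonneg hc hd hp ht
  have he := integral_Ioi_of_hasDerivAt_of_nonneg hc hd hp ht
  rw [← ofReal_integral_eq_lintegral_ofReal hi
    ((ae_restrict_iff' measurableSet_Ioi).mpr (Eventually.of_forall hp)), he]
  norm_num

theorem int_Gs : ∫⁻ w : ℂ, Gs w = ENNReal.ofReal Real.pi := by
  have h := radial (fun y => ENNReal.ofReal (1 / (1 + y) ^ 2)) (by fun_prop)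
  rw [int_half, mul_one] at h
  exact h

/-- at most `n` preimages -/
theorem sum_le {p : ℂ[X]} (hp : 0 < p.natDegree) {A : ℕ → Set ℂ}
    (hA : Pairwise (Function.onFun Disjoint A)) (w : ℂ) :
    ∑' i, ((fun z => p.eval z) '' A i).indicator Gs w ≤ (p.natDegree : ℝ≥0∞) * Gs w := by
  classical
  rw [ENNReal.tsum_eq_iSup_sum]
  refine iSup_le fun s => ?_
  set S := s.filter (fun i => w ∈ (fun z => p.eval z) '' A i) with hS
  have h1 : ∑ i ∈ s, ((fun z => p.eval z) '' A i).indicator Gs w = (S.card : ℝ≥0∞) * Gs w := by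
    have : ∀ i ∈ s, ((fun z => p.eval z) '' A i).indicator Gs w =
        if w ∈ (fun z => p.eval z) '' A i then Gs w else 0 := by
      intro i _
      by_cases h : w ∈ (fun z => p.eval z) '' A i
      · rw [Set.indicator_of_mem h, if_pos h]
      · rw [Set.indicator_of_notMem h, if_neg h]
    rw [Finset.sum_congr rfl this, ← Finset.sum_filter, Finset.sum_const, nsmul_eq_mul]
  rw [h1]
  refine mul_le_mul_left ?_ _
  have h2 : S.card ≤ p.natDegree := by
    set q : ℂ[X] := p - Polynomial.C w with hq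
    have hqd : q.natDegree = p.natDegree := Polynomial.natDegree_sub_C
    have hq0 : q ≠ 0 := by
      intro h
      rw [h, Polynomial.natDegree_zero] at hqd
      omega
    have hex : ∀ i ∈ S, ∃ z, z ∈ A i ∧ p.eval z = w := by
      intro i hi
      exact (Finset.mem_filter.mp hi).2
    choose! f hf using hex
    have h3 : S.card ≤ q.roots.toFinset.card := by
      refine Finset.card_le_card_of_injOn f ?_ ?_
      · intro i hi
        have := (hf i hi).2
        rw [Finset.mem_coe, Multiset.mem_toFinset, Polynomial.mem_roots hq0, Polynomial.IsRoot.def,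
          hq, Polynomial.eval_sub, Polynomial.eval_C, this, sub_self]
      · intro i hi j hj hij
        by_contra hne
        have h4 := (hf i hi).1
        have h5 := (hf j hj).1
        rw [← hij] at h5
        exact Set.disjoint_left.mp (hA hne) h4 h5
    refine h3.trans ((Multiset.toFinset_card_le _).trans ?_)
    rw [← hqd]
    exact Polynomial.card_roots' q
  exact_mod_cast h2

end AREM

open AREM in
/-- **ARE** -/
theorem specARE : SpecARE := by
  classical
  intro p hp
  set F : ℂ → ℂ := fun z => p.eval z with hF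
  have hder : ∀ z, HasDerivAt F (p.derivative.eval z) z := fun z => p.hasDerivAt z
  have hp' : p.derivative ≠ 0 := by
    intro h
    have := Polynomial.derivative_eq_zero.mp h
    omega
  set E : Set ℂ := {z | p.derivative.eval z ≠ 0} with hE
  have hEo : IsOpen E := isOpen_ne_fun p.derivative.continuous continuous_const
  have hEc : Eᶜ.Finite := by
    have : Eᶜ ⊆ (p.derivative.roots.toFinset : Set ℂ) := by
      intro z hz
      have h1 : p.derivative.eval z = 0 := by
        by_contra h
        exact hz h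
      rw [Finset.mem_coe, Multiset.mem_toFinset, Polynomial.mem_roots hp']
      exact h1
    exact (Finset.finite_toSet _).subset this
  -- local injectivity
  have hloc : ∀ z ∈ E, ∃ U : Set ℂ, IsOpen U ∧ z ∈ U ∧ InjOn F U := by
    intro z hz
    have hs : HasStrictDerivAt F (p.derivative.eval z) z := p.hasStrictDerivAt z
    have hz' : p.derivative.eval z ≠ 0 := hz
    have hs' := hs.hasStrictFDerivAt_equiv hz'
    have hi := (hs'.toOpenPartialHomeomorph F).injOn
    rw [hs'.toOpenPartialHomeomorph_coe] at hi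
    exact ⟨_, (hs'.toOpenPartialHomeomorph F).open_source, hs'.mem_toOpenPartialHomeomorph_source, hi⟩
  choose! U hUo hzU hUi using hloc
  obtain ⟨t, htE, htc, hcov⟩ := TopologicalSpace.countable_cover_nhdsWithin (s := E) (f := U)
    (fun z hz => mem_nhdsWithin_of_mem_nhds ((hUo z hz).mem_nhds (hzU z hz)))
  have hEne : E.Nonempty := by
    by_contra h
    rw [Set.not_nonempty_iff_eq_empty] at h
    rw [h, Set.compl_empty] at hEc
    exact Set.infinite_univ hEc
  have htne : t.Nonempty := by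
    obtain ⟨z, hz⟩ := hEne
    obtain ⟨x, hx, _⟩ := Set.mem_iUnion₂.mp (hcov hz)
    exact ⟨x, hx⟩
  obtain ⟨x, hx⟩ := htc.exists_eq_range htne
  have hxE : ∀ i, x i ∈ E := fun i => htE (by rw [hx]; exact Set.mem_range_self i)
  set B : ℕ → Set ℂ := fun i => E ∩ U (x i) with hB
  set A : ℕ → Set ℂ := disjointed B with hA
  have hBm : ∀ i, MeasurableSet (B i) := fun i => hEo.measurableSet.inter (hUo _ (hxE i)).measurableSet
  have hAm : ∀ i, MeasurableSet (A i) := fun i => MeasurableSet.disjointed hBm i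
  have hAB : ∀ i, A i ⊆ B i := fun i => disjointed_subset B i
  have hAd : Pairwise (Function.onFun Disjoint A) := disjoint_disjointed B
  have hAU : ⋃ i, A i = E := by
    rw [hA, iUnion_disjointed]
    apply Set.Subset.antisymm
    · exact Set.iUnion_subset fun i => Set.inter_subset_left
    · intro z hz
      obtain ⟨y, hy, hzy⟩ := Set.mem_iUnion₂.mp (hcov hz)
      rw [hx] at hy
      obtain ⟨i, rfl⟩ := hy
      exact Set.mem_iUnion.mpr ⟨i, hz, hzy⟩
  have hAi : ∀ i, InjOn F (A i) := fun i => (hUi _ (hxE i)).mono fun z hz => (hAB i hz).2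
  have hch := fun i => change (hAm i) (f := F) (f' := fun z => p.derivative.eval z)
    (fun z _ => hder z) (hAi i) Gs
  have hpt : ∀ z, ENNReal.ofReal (sph p z ^ 2) =
      ENNReal.ofReal (‖p.derivative.eval z‖ ^ 2) * Gs (F z) := by
    intro z
    unfold Gs sph
    rw [← ENNReal.ofReal_mul (by positivity)]
    congr 1
    rw [div_pow, mul_one_div]
  have h0 : ∫⁻ z in Eᶜ, ENNReal.ofReal (sph p z ^ 2) = 0 :=
    setLIntegral_measure_zero _ _ (hEc.measure_zero volume)
  rw [← lintegral_add_compl _ hEo.measurableSet, h0, add_zero, ← hAU,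
    lintegral_iUnion hAm hAd]
  have h1 : ∀ i, ∫⁻ z in A i, ENNReal.ofReal (sph p z ^ 2) =
      ∫⁻ w, (F '' A i).indicator Gs w := by
    intro i
    rw [lintegral_indicator (hch i).1, (hch i).2]
    exact setLIntegral_congr_fun (hAm i) fun z _ => hpt z
  simp_rw [h1]
  rw [← lintegral_tsum fun i => (meas_Gs.indicator (hch i).1).aemeasurable]
  refine (lintegral_mono fun w => sum_le hp hAd w).trans ?_
  rw [lintegral_const_mul _ meas_Gs, int_Gs, ENNReal.ofReal_mul (Nat.cast_nonneg _),
    ENNReal.ofReal_natCast]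

end

end Pool.Agent.Lib.MP684ec1.MD
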