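import Pool.Agent.Lib.MP_684ec1_an.MD.Spec

/-!
# Module CNB: the number of the squares which are not clean
-/

set_option autoImplicit false

namespace Pool.Agent.Lib.MP684ec1.MD

open Complex Polynomial MeasureTheory intervalIntegral
open Pool.Agent.Lib.MP684ec1.HP

namespace CNBM

theorem floor_diff {s t : ℝ} (h : |⌊s⌋ - ⌊t⌋| ≤ 1) : |s - t| ≤ 2 := by
  have h1 := Int.floor_le s
  have h2 := Int.lt_floor_add_one s
  have h3 := Int.floor_le t
  have h4 := Int.lt_floor_add_one t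
  rw [abs_le] at h ⊢
  have h5 : ((⌊s⌋ : ℝ) - ⌊t⌋) ≤ 1 := by exact_mod_cast h.2
  have h6 : (-1 : ℝ) ≤ (⌊s⌋ : ℝ) - ⌊t⌋ := by exact_mod_cast h.1
  constructor <;> linarith

theorem coord {k : ℕ} {x y : ℝ} (h : |⌊(2 : ℝ) ^ k * x⌋ - ⌊(2 : ℝ) ^ k * y⌋| ≤ 1) :
    |x - y| ≤ 2 := by
  have h1 := floor_diff h
  have h0 : (0 : ℝ) < 2 ^ k := by positivity
  rw [← mul_sub, abs_mul, abs_of_pos h0] at h1
  have h2 : (1 : ℝ) ≤ 2 ^ k := one_le_pow₀ (by norm_num)
  nlinarith [abs_nonneg (x - y)]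

theorem norm_le {z w : ℂ} {k : ℕ} (hw : ‖w‖ ≤ 1) (h1 : |(fl k z).1 - (fl k w).1| ≤ 1)
    (h2 : |(fl k z).2 - (fl k w).2| ≤ 1) : ‖z‖ ≤ 4 := by
  have h3 : |z.re - w.re| ≤ 2 := coord h1
  have h4 : |z.im - w.im| ≤ 2 := coord h2
  have h5 : ‖z - w‖ ≤ 3 := by
    have h6 : ‖z - w‖ ^ 2 = (z.re - w.re) ^ 2 + (z.im - w.im) ^ 2 := by
      rw [Complex.sq_norm, Complex.normSq_apply, Complex.sub_re, Complex.sub_im]
      ring
    have h7 : (z.re - w.re) ^ 2 ≤ 4 := by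
      rw [← sq_abs]
      nlinarith [abs_nonneg (z.re - w.re)]
    have h8 : (z.im - w.im) ^ 2 ≤ 4 := by
      rw [← sq_abs]
      nlinarith [abs_nonneg (z.im - w.im)]
    nlinarith [norm_nonneg (z - w)]
  calc ‖z‖ = ‖w + (z - w)‖ := by rw [add_sub_cancel]
    _ ≤ ‖w‖ + ‖z - w‖ := norm_add_le _ _
    _ ≤ 4 := by linarith

theorem Bx_finite (p : ℂ[X]) (k : ℕ) (hp : p ≠ 0) : (Bx p k).Finite := by
  have h1 : ({z : ℂ | p.eval z = 0}).Finite := by
    have h2 : {z : ℂ | p.eval z = 0} ⊆ (p.roots.toFinset : Set ℂ) := by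
      intro z hz
      rw [Finset.mem_coe, Multiset.mem_toFinset, mem_roots hp]
      exact hz
    exact (Finset.finite_toSet _).subset h2
  refine (h1.image (fl k)).subset ?_
  rintro a ⟨z, hz, _, hza⟩
  exact ⟨z, hz, hza⟩

end CNBM

open CNBM in
theorem specCNB : SpecCNB := by
  classical
  intro p k hp
  set B : Finset (ℤ × ℤ) := (Bx_finite p k hp).toFinset with hB
  set C : Finset (ℤ × ℤ) := Finset.Icc (-1 : ℤ) 1 ×ˢ Finset.Icc (-1 : ℤ) 1 with hC
  set F : Finset (ℤ × ℤ) := (C ×ˢ B).image (fun t => (t.2.1 + t.1.1, t.2.2 + t.1.2)) with hF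
  have hsub : Un p k ⊆ (F : Set (ℤ × ℤ)) := by
    rintro a ⟨ha, w, hw, hwa⟩
    unfold Cl at ha
    push Not at ha
    obtain ⟨z, hz, h1, h2⟩ := ha
    have h1' : |(fl k z).1 - (fl k w).1| ≤ 1 := by rw [hwa]; exact h1
    have h2' : |(fl k z).2 - (fl k w).2| ≤ 1 := by rw [hwa]; exact h2
    have h4 : ‖z‖ ≤ 4 := norm_le hw h1' h2'
    rw [Finset.mem_coe, hF, Finset.mem_image]
    rw [abs_le] at h1 h2
    refine ⟨((a.1 - (fl k z).1, a.2 - (fl k z).2), fl k z), ?_, ?_⟩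
    · rw [Finset.mem_product, hC, Finset.mem_product, Finset.mem_Icc, Finset.mem_Icc, hB,
        Set.Finite.mem_toFinset]
      refine ⟨⟨⟨?_, ?_⟩, ⟨?_, ?_⟩⟩, z, hz, h4, rfl⟩ <;> dsimp only <;> omega
    · ext <;> dsimp only <;> ring
  have hcard : F.card ≤ 9 * (Bx p k).ncard := by
    calc F.card ≤ (C ×ˢ B).card := Finset.card_image_le
      _ = C.card * B.card := Finset.card_product _ _
      _ = 9 * (Bx p k).ncard := by
        have h1 : C.card = 9 := by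
          rw [hC, Finset.card_product]
          rfl
        rw [h1, Set.ncard_eq_toFinset_card (Bx p k) (Bx_finite p k hp)]
  refine ⟨(Finset.finite_toSet F).subset hsub, ?_⟩
  calc (Un p k).ncard ≤ (F : Set (ℤ × ℤ)).ncard := Set.ncard_le_ncard hsub (Finset.finite_toSet F)
    _ = F.card := Set.ncard_coe_finset F
    _ ≤ _ := hcard

end Pool.Agent.Lib.MP684ec1.MD
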