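import Pool.Agent.Lib.MP_684ec1_an.MD.Spec

/-!
# MP_684ec1, module CSA: the Cauchy-Schwarz inequality
-/

set_option autoImplicit false

namespace Pool.Agent.Lib.MP684ec1.MD

open Complex Polynomial MeasureTheory intervalIntegral
open Pool.Agent.Lib.MP684ec1.HP

namespace CSAM

theorem sph_cont (p : ℂ[X]) : Continuous (sph p) := by
  unfold sph
  exact Continuous.div (by fun_prop) (by fun_prop) (fun z => by positivity)

theorem sph_nonneg (p : ℂ[X]) (z : ℂ) : 0 ≤ sph p z := by
  unfold sph
  positivity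

end CSAM

theorem specCSA (hARE : SpecARE) : SpecCSA := by
  intro p A v hp hv hA hAb hvol
  have hc : Continuous (sph p) := CSAM.sph_cont p
  have h0 : ∀ z, 0 ≤ sph p z := CSAM.sph_nonneg p
  have hint : IntegrableOn (sph p) A :=
    (hc.continuousOn.integrableOn_compact (isCompact_closedBall 0 1)).mono_set hAb
  have hn : (0 : ℝ) ≤ (p.natDegree : ℝ) * Real.pi := by positivity
  have key : ENNReal.ofReal (∫ z in A, sph p z) ≤
      ENNReal.ofReal (Real.sqrt (p.natDegree * Real.pi * v)) := by
    rw [ofReal_integral_eq_lintegral_ofReal hint (ae_of_all _ h0)]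
    have h1 := ENNReal.lintegral_mul_le_Lp_mul_Lq (volume.restrict A)
      Real.HolderConjugate.two_two (f := fun z => ENNReal.ofReal (sph p z)) (g := fun _ => 1)
      (hc.measurable.ennreal_ofReal.aemeasurable) aemeasurable_const
    simp only [Pi.mul_apply, mul_one] at h1
    refine h1.trans ?_
    have h2 : (∫⁻ z in A, ENNReal.ofReal (sph p z) ^ (2 : ℝ)) ≤
        ENNReal.ofReal (p.natDegree * Real.pi) := by
      refine le_trans ?_ (hARE p hp)
      refine (setLIntegral_le_lintegral _ _).trans (le_of_eq ?_)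
      refine lintegral_congr fun z => ?_
      rw [ENNReal.rpow_ofNat, ENNReal.ofReal_pow (h0 z)]
    have h3 : (∫⁻ _ in A, (1 : ENNReal) ^ (2 : ℝ)) ≤ ENNReal.ofReal v := by
      simpa using hvol
    have h4 : ENNReal.ofReal (Real.sqrt (p.natDegree * Real.pi * v)) =
        ENNReal.ofReal (p.natDegree * Real.pi) ^ ((1 : ℝ) / 2) *
          ENNReal.ofReal v ^ ((1 : ℝ) / 2) := by
      rw [Real.sqrt_mul hn, ENNReal.ofReal_mul (Real.sqrt_nonneg _), Real.sqrt_eq_rpow,
        Real.sqrt_eq_rpow, ENNReal.ofReal_rpow_of_nonneg hn (by norm_num),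
        ENNReal.ofReal_rpow_of_nonneg hv (by norm_num)]
    rw [h4]
    gcongr
  exact (ENNReal.ofReal_le_ofReal_iff (Real.sqrt_nonneg _)).1 key

end Pool.Agent.Lib.MP684ec1.MD
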