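import Pool.Agent.Lib.MP_684ec1_an.MD.Spec

/-!
# MP_684ec1, MD: module SQR, clean squares
-/

set_option autoImplicit false

namespace Pool.Agent.Lib.MP684ec1.MD

open Complex Polynomial MeasureTheory intervalIntegral
open Pool.Agent.Lib.MP684ec1.HP

namespace SQRM

/-- Fubini for a box. -/
theorem box (g : ℝ × ℝ → ℝ) (a b c d B : ℝ) (hab : a ≤ b) (hcd : c ≤ d)
    (hg : ContinuousOn g (Set.Icc a b ×ˢ Set.Icc c d))
    (hB : ∀ y ∈ Set.Icc a b, ∫ x in c..d, g (y, x) ≤ B) :
    ∫ q in Set.Ico a b ×ˢ Set.Ico c d, g q ≤ (b - a) * B := by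
  have h1 : IntegrableOn g (Set.Icc a b ×ˢ Set.Icc c d) :=
    hg.integrableOn_compact (isCompact_Icc.prod isCompact_Icc)
  have h2 : IntegrableOn g (Set.Ico a b ×ˢ Set.Ico c d) :=
    h1.mono_set (Set.prod_mono Set.Ico_subset_Icc_self Set.Ico_subset_Icc_self)
  have h3 : Integrable g ((volume.restrict (Set.Ico a b)).prod (volume.restrict (Set.Ico c d))) := by
    rw [Measure.prod_restrict, ← Measure.volume_eq_prod]
    exact h2
  have h4 := h3.integral_prod_left
  rw [Measure.volume_eq_prod, setIntegral_prod _ (by rw [← Measure.volume_eq_prod]; exact h2)]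
  have h5 : ∫ y in Set.Ico a b, ∫ x in Set.Ico c d, g (y, x) ≤ ∫ _ in Set.Ico a b, B := by
    refine setIntegral_mono_on h4 ?_ measurableSet_Ico ?_
    · exact integrableOn_const (by simp)
    · intro y hy
      have h6 := hB y (Set.Ico_subset_Icc_self hy)
      rw [intervalIntegral.integral_of_le hcd] at h6
      rw [integral_Ico_eq_integral_Ioo, ← integral_Ioc_eq_integral_Ioo]
      exact h6
  refine h5.trans (le_of_eq ?_)
  rw [setIntegral_const, Real.volume_real_Ico_of_le hab, smul_eq_mul]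

/-- A coordinate of a zero outside the block. -/
theorem coord (k : ℕ) (x : ℝ) (a : ℤ) (h : ¬ |⌊(2 : ℝ) ^ k * x⌋ - a| ≤ 1) :
    3 / 2 * ((2 : ℝ) ^ k)⁻¹ ≤ |x - ((a : ℝ) + 1 / 2) * ((2 : ℝ) ^ k)⁻¹| := by
  have hs : (0 : ℝ) < ((2 : ℝ) ^ k)⁻¹ := by positivity
  have h2 : (0 : ℝ) < (2 : ℝ) ^ k := by positivity
  have hx : x = ((2 : ℝ) ^ k * x) * ((2 : ℝ) ^ k)⁻¹ := by
    field_simp
  obtain ⟨X, hX⟩ : ∃ X, X = (2 : ℝ) ^ k * x := ⟨_, rfl⟩
  rw [← hX] at h hx
  rw [hx]
  obtain ⟨s, hsd⟩ : ∃ s, s = ((2 : ℝ) ^ k)⁻¹ := ⟨_, rfl⟩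
  rw [← hsd] at hs ⊢
  rw [show X * s - ((a : ℝ) + 1 / 2) * s = (X - (a + 1 / 2)) * s by ring, abs_mul, abs_of_pos hs]
  refine mul_le_mul_of_nonneg_right ?_ hs.le
  rw [not_le, lt_abs] at h
  rcases h with h | h
  · have h3 : (a + 2 : ℤ) ≤ ⌊X⌋ := by omega
    have h4 : ((a + 2 : ℤ) : ℝ) ≤ X := Int.le_floor.1 h3
    push_cast at h4
    refine le_trans ?_ (le_abs_self _)
    linarith
  · have h3 : ⌊X⌋ < (a - 1 : ℤ) := by omega
    have h4 : X < ((a - 1 : ℤ) : ℝ) := Int.floor_lt.1 h3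
    push_cast at h4
    refine le_trans ?_ (neg_le_abs _)
    linarith

end SQRM

open SQRM in
theorem specSQR (hSEG : SpecSEG) : SpecSQR := by
  intro p k a hp hCl
  have hp0 : p ≠ 0 := by
    rintro rfl
    simp at hp
  obtain ⟨s, hs⟩ : ∃ s, s = ((2 : ℝ) ^ k)⁻¹ := ⟨_, rfl⟩
  have hs0 : 0 < s := by
    rw [hs]
    positivity
  have hs1 : (2 : ℝ) ^ k * s = 1 := by
    rw [hs]
    field_simp
  obtain ⟨r, hr⟩ : ∃ r, r = s * (Real.sqrt 2 / 2) := ⟨_, rfl⟩
  have hsq2 : Real.sqrt 2 ^ 2 = 2 := Real.sq_sqrt (by norm_num)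
  have hsq0 : 0 < Real.sqrt 2 := Real.sqrt_pos.2 (by norm_num)
  have hsq3 : Real.sqrt 2 ≤ 3 / 2 := by
    rw [show (3 / 2 : ℝ) = Real.sqrt ((3 / 2) ^ 2) by rw [Real.sqrt_sq (by norm_num)]]
    exact Real.sqrt_le_sqrt (by norm_num)
  have hr0 : 0 < r := by
    rw [hr]
    positivity
  have hr2 : r ^ 2 = s ^ 2 / 2 := by
    rw [hr, mul_pow, div_pow, hsq2]
    ring
  -- the corners
  obtain ⟨x0, hx0⟩ : ∃ x0 : ℝ, x0 = (a.1 : ℝ) * s := ⟨_, rfl⟩
  obtain ⟨y0, hy0⟩ : ∃ y0 : ℝ, y0 = (a.2 : ℝ) * s := ⟨_, rfl⟩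
  let z₀ : ℂ := ⟨x0 + s / 2, y0 + s / 2⟩
  -- points of the closed square
  have hin : ∀ x ∈ Set.Icc x0 (x0 + s), ∀ y ∈ Set.Icc y0 (y0 + s),
      ‖((x : ℂ) + (y : ℂ) * I) - z₀‖ ≤ r := by
    intro x hx y hy
    have h1 : ‖((x : ℂ) + (y : ℂ) * I) - z₀‖ ^ 2 ≤ r ^ 2 := by
      rw [← Complex.normSq_eq_norm_sq, Complex.normSq_apply, hr2]
      have e1 : (((x : ℂ) + (y : ℂ) * I) - z₀).re = x - (x0 + s / 2) := by
        simp [z₀]
      have e2 : (((x : ℂ) + (y : ℂ) * I) - z₀).im = y - (y0 + s / 2) := by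
        simp [z₀]
      rw [e1, e2]
      have h3 : (x - (x0 + s / 2)) * (x - (x0 + s / 2)) ≤ s / 2 * (s / 2) := by
        nlinarith [hx.1, hx.2]
      have h4 : (y - (y0 + s / 2)) * (y - (y0 + s / 2)) ≤ s / 2 * (s / 2) := by
        nlinarith [hy.1, hy.2]
      nlinarith
    exact abs_le_of_sq_le_sq' h1 hr0.le |>.2
  -- zeros
  have hzero : ∀ z : ℂ, p.eval z = 0 → 2 * r ≤ ‖z - z₀‖ := by
    intro z hz
    have h1 := hCl z hz
    have h2 : 2 * r ≤ 3 / 2 * s := by
      rw [hr]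
      nlinarith
    rw [not_and_or] at h1
    rcases h1 with h1 | h1
    · have h3 := coord k z.re a.1 h1
      have h4 : (z - z₀).re = z.re - ((a.1 : ℝ) + 1 / 2) * s := by
        simp only [Complex.sub_re, z₀]
        rw [hx0]
        ring
      have h5 := Complex.abs_re_le_norm (z - z₀)
      rw [h4, hs] at h5
      rw [hs] at h2
      linarith
    · have h3 := coord k z.im a.2 h1
      have h4 : (z - z₀).im = z.im - ((a.2 : ℝ) + 1 / 2) * s := by
        simp only [Complex.sub_im, z₀]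
        rw [hy0]
        ring
      have h5 := Complex.abs_im_le_norm (z - z₀)
      rw [h4, hs] at h5
      rw [hs] at h2
      linarith
  have hne : ∀ z : ℂ, ‖z - z₀‖ ≤ r → p.eval z ≠ 0 := by
    intro z hz h0
    have := hzero z h0
    linarith
  -- the two functions
  let m := Nat.clog 2 p.natDegree
  let B : ℝ := ((m : ℝ) + 1) * (Real.pi / 2) + Real.sqrt 2
  have hnm : (p.natDegree : ℝ) * (1 / 2) ^ m ≤ 1 := by
    have h1 : p.natDegree ≤ 2 ^ m := Nat.le_pow_clog (by norm_num) _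
    have h2 : (p.natDegree : ℝ) ≤ 2 ^ m := by exact_mod_cast h1
    rw [one_div, inv_pow]
    have h3 : (0 : ℝ) < 2 ^ m := by positivity
    rw [← div_eq_mul_inv, div_le_one h3]
    exact h2
  have hlen : (p.natDegree * (1 / 2) ^ m / r) * s ≤ Real.sqrt 2 := by
    rw [div_mul_eq_mul_div, div_le_iff₀ hr0]
    have h1 : Real.sqrt 2 * r = s := by
      rw [hr]
      calc Real.sqrt 2 * (s * (Real.sqrt 2 / 2)) = s * (Real.sqrt 2 ^ 2 / 2) := by ring
        _ = s := by rw [hsq2]; ring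
    rw [h1]
    calc (p.natDegree : ℝ) * (1 / 2) ^ m * s ≤ 1 * s := mul_le_mul_of_nonneg_right hnm hs0.le
      _ = s := one_mul s
  have hcontg : ContinuousOn (fun z : ℂ => (wt p z : ℂ) * lg p z) (Metric.closedBall z₀ r) := by
    have h1 : ContinuousOn (fun z : ℂ => lg p z) (Metric.closedBall z₀ r) := by
      unfold lg
      refine ContinuousOn.div p.derivative.continuous.continuousOn p.continuous.continuousOn ?_
      intro z hz
      exact hne z (by rwa [Metric.mem_closedBall, dist_eq_norm] at hz)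
    have h2 : Continuous (fun z : ℂ => wt p z) := by
      unfold wt
      refine Continuous.div (by fun_prop) (by fun_prop) ?_
      intro z
      positivity
    exact (Complex.continuous_ofReal.comp h2).continuousOn.mul h1
  have hball : ∀ x ∈ Set.Icc x0 (x0 + s), ∀ y ∈ Set.Icc y0 (y0 + s),
      ((x : ℂ) + (y : ℂ) * I) ∈ Metric.closedBall z₀ r := by
    intro x hx y hy
    rw [Metric.mem_closedBall, dist_eq_norm]
    exact hin x hx y hy
  -- horizontal
  let gh : ℝ × ℝ → ℝ := fun q =>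
    |((wt p ((q.2 : ℂ) + (q.1 : ℂ) * I) : ℂ) * lg p ((q.2 : ℂ) + (q.1 : ℂ) * I) * 1).re|
  let gv : ℝ × ℝ → ℝ := fun q =>
    |((wt p ((q.1 : ℂ) + (q.2 : ℂ) * I) : ℂ) * lg p ((q.1 : ℂ) + (q.2 : ℂ) * I) * I).re|
  have hgh : ContinuousOn gh (Set.Icc y0 (y0 + s) ×ˢ Set.Icc x0 (x0 + s)) := by
    have h1 : ContinuousOn (fun q : ℝ × ℝ => (wt p ((q.2 : ℂ) + (q.1 : ℂ) * I) : ℂ) *
        lg p ((q.2 : ℂ) + (q.1 : ℂ) * I)) (Set.Icc y0 (y0 + s) ×ˢ Set.Icc x0 (x0 + s)) := by
      refine hcontg.comp (f := fun q : ℝ × ℝ => (q.2 : ℂ) + (q.1 : ℂ) * I) (by fun_prop) ?_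
      intro q hq
      exact hball _ hq.2 _ hq.1
    exact (Complex.continuous_re.comp_continuousOn (h1.mul continuousOn_const)).abs
  have hgv : ContinuousOn gv (Set.Icc x0 (x0 + s) ×ˢ Set.Icc y0 (y0 + s)) := by
    have h1 : ContinuousOn (fun q : ℝ × ℝ => (wt p ((q.1 : ℂ) + (q.2 : ℂ) * I) : ℂ) *
        lg p ((q.1 : ℂ) + (q.2 : ℂ) * I)) (Set.Icc x0 (x0 + s) ×ˢ Set.Icc y0 (y0 + s)) := by
      refine hcontg.comp (f := fun q : ℝ × ℝ => (q.1 : ℂ) + (q.2 : ℂ) * I) (by fun_prop) ?_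
      intro q hq
      exact hball _ hq.1 _ hq.2
    exact (Complex.continuous_re.comp_continuousOn (h1.mul continuousOn_const)).abs
  have hBh : ∀ y ∈ Set.Icc y0 (y0 + s), ∫ x in x0..(x0 + s), gh (y, x) ≤ B := by
    intro y hy
    have h1 := hSEG p z₀ ((y : ℂ) * I) 1 r x0 (x0 + s) m hp0 hr0 hzero (by simp) (by linarith) (by
      intro t ht
      have := hin t ht y hy
      rw [mul_one, add_comm ((y : ℂ) * I) (t : ℂ)]
      exact this)
    have h2 : ∫ x in x0..(x0 + s), gh (y, x) = ∫ t in x0..(x0 + s),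
        |((wt p ((y : ℂ) * I + t * 1) : ℂ) * lg p ((y : ℂ) * I + t * 1) * 1).re| := by
      refine intervalIntegral.integral_congr fun t _ => ?_
      simp only [gh, mul_one, add_comm ((y : ℂ) * I) (t : ℂ)]
    rw [h2]
    refine h1.trans ?_
    rw [show x0 + s - x0 = s by ring]
    exact add_le_add_right hlen _
  have hBv : ∀ x ∈ Set.Icc x0 (x0 + s), ∫ y in y0..(y0 + s), gv (x, y) ≤ B := by
    intro x hx
    have h1 := hSEG p z₀ (x : ℂ) I r y0 (y0 + s) m hp0 hr0 hzero (by simp) (by linarith) (by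
      intro t ht
      exact hin x hx t ht)
    refine h1.trans ?_
    rw [show y0 + s - y0 = s by ring]
    exact add_le_add_right hlen _
  have hboxh := box gh y0 (y0 + s) x0 (x0 + s) B (by linarith) (by linarith) hgh hBh
  have hboxv := box gv x0 (x0 + s) y0 (y0 + s) B (by linarith) (by linarith) hgv hBv
  rw [show y0 + s - y0 = s by ring] at hboxh
  rw [show x0 + s - x0 = s by ring] at hboxv
  -- the square as a preimage
  have hfl : ∀ (x : ℝ) (n : ℤ), ⌊(2 : ℝ) ^ k * x⌋ = n ↔ (n : ℝ) * s ≤ x ∧ x < (n : ℝ) * s + s := by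
    intro x n
    rw [Int.floor_eq_iff]
    have h2 : (0 : ℝ) < (2 : ℝ) ^ k := by positivity
    constructor
    · rintro ⟨h3, h4⟩
      constructor
      · calc (n : ℝ) * s ≤ ((2 : ℝ) ^ k * x) * s := mul_le_mul_of_nonneg_right h3 hs0.le
          _ = ((2 : ℝ) ^ k * s) * x := by ring
          _ = x := by rw [hs1, one_mul]
      · calc x = ((2 : ℝ) ^ k * s) * x := by rw [hs1, one_mul]
          _ = ((2 : ℝ) ^ k * x) * s := by ring
          _ < (n + 1) * s := mul_lt_mul_of_pos_right h4 hs0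
          _ = (n : ℝ) * s + s := by ring
    · rintro ⟨h3, h4⟩
      constructor
      · calc (n : ℝ) = ((2 : ℝ) ^ k * s) * n := by rw [hs1, one_mul]
          _ = (2 : ℝ) ^ k * (n * s) := by ring
          _ ≤ (2 : ℝ) ^ k * x := mul_le_mul_of_nonneg_left h3 h2.le
      · calc (2 : ℝ) ^ k * x < (2 : ℝ) ^ k * (n * s + s) := mul_lt_mul_of_pos_left h4 h2
          _ = ((2 : ℝ) ^ k * s) * (n + 1) := by ring
          _ = (n : ℝ) + 1 := by rw [hs1, one_mul]
  have hS1 : {z : ℂ | fl k z = a} = Complex.measurableEquivRealProd ⁻¹'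
      (Set.Ico x0 (x0 + s) ×ˢ Set.Ico y0 (y0 + s)) := by
    ext z
    simp only [Set.mem_ofPred_eq, Set.mem_preimage, Complex.measurableEquivRealProd_apply,
      Set.mem_prod, Set.mem_Ico, fl, Prod.ext_iff]
    rw [hfl, hfl, hx0, hy0]
  let e' : ℂ ≃ᵐ ℝ × ℝ := Complex.measurableEquivRealProd.trans MeasurableEquiv.prodComm
  have he' : MeasurePreserving e' := by
    have h1 : MeasurePreserving (Prod.swap : ℝ × ℝ → ℝ × ℝ) volume volume := by
      have := Measure.measurePreserving_swap (μ := (volume : Measure ℝ)) (ν := (volume : Measure ℝ))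
      rwa [← Measure.volume_eq_prod] at this
    exact h1.comp Complex.volume_preserving_equiv_real_prod
  have hS2 : {z : ℂ | fl k z = a} = e' ⁻¹' (Set.Ico y0 (y0 + s) ×ˢ Set.Ico x0 (x0 + s)) := by
    rw [hS1]
    ext z
    simp only [Set.mem_preimage, Complex.measurableEquivRealProd_apply, Set.mem_prod, e',
      MeasurableEquiv.coe_trans, Function.comp_apply]
    exact and_comm
  have hIv : ∫ z in {z : ℂ | fl k z = a}, gv (Complex.measurableEquivRealProd z) =
      ∫ q in Set.Ico x0 (x0 + s) ×ˢ Set.Ico y0 (y0 + s), gv q := by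
    rw [hS1]
    exact Complex.volume_preserving_equiv_real_prod.setIntegral_preimage_emb
      Complex.measurableEquivRealProd.measurableEmbedding gv _
  have hIh : ∫ z in {z : ℂ | fl k z = a}, gh (e' z) =
      ∫ q in Set.Ico y0 (y0 + s) ×ˢ Set.Ico x0 (x0 + s), gh q := by
    rw [hS2]
    exact he'.setIntegral_preimage_emb e'.measurableEmbedding gh _
  -- integrability
  have hSball : {z : ℂ | fl k z = a} ⊆ Metric.closedBall z₀ r := by
    intro z hz
    rw [hS1] at hz
    simp only [Set.mem_preimage, Complex.measurableEquivRealProd_apply, Set.mem_prod] at hz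
    have := hball z.re (Set.Ico_subset_Icc_self hz.1) z.im (Set.Ico_subset_Icc_self hz.2)
    rwa [Complex.re_add_im] at this
  have hSmeas : MeasurableSet {z : ℂ | fl k z = a} := by
    rw [hS1]
    exact Complex.measurableEquivRealProd.measurable (measurableSet_Ico.prod measurableSet_Ico)
  have hev : ∀ z : ℂ, gv (Complex.measurableEquivRealProd z) =
      |((wt p z : ℂ) * lg p z * I).re| := by
    intro z
    simp only [gv, Complex.measurableEquivRealProd_apply, Complex.re_add_im]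
  have heh : ∀ z : ℂ, gh (e' z) = |((wt p z : ℂ) * lg p z * 1).re| := by
    intro z
    change |((wt p ((z.re : ℂ) + (z.im : ℂ) * I) : ℂ) * lg p ((z.re : ℂ) + (z.im : ℂ) * I) * 1).re|
      = _
    rw [Complex.re_add_im]
  have hintv : IntegrableOn (fun z => gv (Complex.measurableEquivRealProd z))
      {z : ℂ | fl k z = a} := by
    simp only [hev]
    refine (ContinuousOn.integrableOn_compact (isCompact_closedBall z₀ r) ?_).mono_set hSball
    exact (Complex.continuous_re.comp_continuousOn (hcontg.mul continuousOn_const)).abs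
  have hinth : IntegrableOn (fun z => gh (e' z)) {z : ℂ | fl k z = a} := by
    simp only [heh]
    refine (ContinuousOn.integrableOn_compact (isCompact_closedBall z₀ r) ?_).mono_set hSball
    exact (Complex.continuous_re.comp_continuousOn (hcontg.mul continuousOn_const)).abs
  have hsphc : Continuous (sph p) := by
    unfold sph
    refine Continuous.div (by fun_prop) (by fun_prop) ?_
    intro z
    positivity
  have hints : IntegrableOn (sph p) {z : ℂ | fl k z = a} :=
    (hsphc.continuousOn.integrableOn_compact (isCompact_closedBall z₀ r)).mono_set hSball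
  -- pointwise
  have hpt : ∀ z ∈ {z : ℂ | fl k z = a}, sph p z ≤
      gh (e' z) + gv (Complex.measurableEquivRealProd z) := by
    intro z hz
    have hz0 : p.eval z ≠ 0 := hne z (by
      have := hSball hz
      rwa [Metric.mem_closedBall, dist_eq_norm] at this)
    have hn0 : 0 < ‖p.eval z‖ := norm_pos_iff.2 hz0
    have h1 : sph p z = ‖(wt p z : ℂ) * lg p z‖ := by
      rw [norm_mul, Complex.norm_real, Real.norm_eq_abs, lg, norm_div, wt, abs_of_nonneg
        (by positivity), sph]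
      field_simp
    rw [hev, heh, h1]
    obtain ⟨g, hg⟩ : ∃ g, g = (wt p z : ℂ) * lg p z := ⟨_, rfl⟩
    rw [← hg]
    have h2 : (g * 1).re = g.re := by rw [mul_one]
    have h3 : (g * I).re = -g.im := by simp
    rw [h2, h3, abs_neg]
    exact Complex.norm_le_abs_re_add_abs_im g
  calc ∫ z in {z : ℂ | fl k z = a}, sph p z
      ≤ ∫ z in {z : ℂ | fl k z = a}, (gh (e' z) + gv (Complex.measurableEquivRealProd z)) :=
        setIntegral_mono_on hints (hinth.add hintv) hSmeas hpt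
    _ = (∫ z in {z : ℂ | fl k z = a}, gh (e' z)) +
        ∫ z in {z : ℂ | fl k z = a}, gv (Complex.measurableEquivRealProd z) :=
        integral_add hinth hintv
    _ ≤ s * B + s * B := by
        rw [hIh, hIv]
        exact add_le_add hboxh hboxv
    _ ≤ Bn p / 2 ^ k := by
        have h1 : Bn p / 2 ^ k = s * Bn p := by
          rw [hs]
          field_simp
        rw [h1, ← mul_add]
        refine mul_le_mul_of_nonneg_left ?_ hs0.le
        have h2 : Bn p = ((m : ℝ) + 1) * Real.pi + 4 := rfl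
        have h3 : B = ((m : ℝ) + 1) * (Real.pi / 2) + Real.sqrt 2 := rfl
        rw [h2, h3]
        linarith

end Pool.Agent.Lib.MP684ec1.MD
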