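import Pool.Agent.Lib.MP_684ec1_an.MD.Spec

/-!
# VAR: few sign changes, up to a small error
-/

set_option autoImplicit false

open Polynomial MeasureTheory intervalIntegral

namespace Pool.Agent.Lib.MP684ec1.MD

namespace VARM

/-- the roots in an open interval -/
noncomputable def rt (q : ℝ[X]) (a b : ℝ) : Finset ℝ :=
  q.roots.toFinset.filter (fun x => a < x ∧ x < b)

lemma mem_rt {q : ℝ[X]} (hq : q ≠ 0) {a b x : ℝ} : x ∈ rt q a b ↔ q.eval x = 0 ∧ a < x ∧ x < b := by
  unfold rt
  rw [Finset.mem_filter, Multiset.mem_toFinset, mem_roots hq, IsRoot.def]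

lemma card_rt (q : ℝ[X]) (a b : ℝ) : (rt q a b).card ≤ q.natDegree :=
  (Finset.card_filter_le _ _).trans ((Multiset.toFinset_card_le _).trans (card_roots' q))

/-- without roots the sign is constant -/
lemma const_sign {q : ℝ[X]} (hq : q ≠ 0) {a b : ℝ} (hab : a < b) (h : rt q a b = ∅) :
    (∀ t ∈ Set.Icc a b, 0 ≤ q.eval t) ∨ (∀ t ∈ Set.Icc a b, q.eval t ≤ 0) := by
  have hcont : Continuous fun t => q.eval t := q.continuous
  have hno : ∀ x, a < x → x < b → q.eval x ≠ 0 := by
    intro x h1 h2 h3
    have : x ∈ rt q a b := (mem_rt hq).2 ⟨h3, h1, h2⟩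
    rw [h] at this
    exact absurd this (Finset.notMem_empty x)
  -- two points of the open interval have the same sign
  have key : ∀ s t, a < s → s < b → a < t → t < b → ¬ (q.eval s < 0 ∧ 0 < q.eval t) := by
    rintro s t hs1 hs2 ht1 ht2 ⟨h1, h2⟩
    have h3 := intermediate_value_uIcc (a := s) (b := t) (f := fun t => q.eval t) hcont.continuousOn
    have h4 : (0 : ℝ) ∈ Set.uIcc (q.eval s) (q.eval t) := by
      rw [Set.uIcc_of_le (by linarith)]
      exact ⟨h1.le, h2.le⟩
    obtain ⟨x, hx, hx0⟩ := h3 h4
    have hx1 : a < x := lt_of_lt_of_le (lt_min hs1 ht1) hx.1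
    have hx2 : x < b := lt_of_le_of_lt hx.2 (max_lt hs2 ht2)
    exact hno x hx1 hx2 hx0
  have hclos : ∀ S : Set ℝ, IsClosed S → Set.Ioo a b ⊆ S → Set.Icc a b ⊆ S := by
    intro S hS hsub
    rw [← closure_Ioo hab.ne]
    exact hS.closure_subset_iff.2 hsub
  by_cases hex : ∃ t, a < t ∧ t < b ∧ 0 < q.eval t
  · left
    obtain ⟨t, ht1, ht2, ht⟩ := hex
    refine hclos {s | 0 ≤ q.eval s} (isClosed_le continuous_const hcont) ?_
    intro s hs
    by_contra hcon
    exact key s t hs.1 hs.2 ht1 ht2 ⟨not_le.mp hcon, ht⟩
  · right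
    push Not at hex
    exact hclos {s | q.eval s ≤ 0} (isClosed_le hcont continuous_const)
      (fun s hs => hex s hs.1 hs.2)

lemma point {w q e η : ℝ} (h0 : 0 ≤ w) (h1 : w ≤ 1 / 2) (he : |e| ≤ η) (hq : 0 ≤ q) :
    |w * (q + e)| ≤ w * (q + e) + η := by
  have h2 := abs_le.mp he
  have h3 : 0 ≤ w * q := mul_nonneg h0 hq
  have hη : 0 ≤ η := (abs_nonneg _).trans he
  have h4 : w * |e| ≤ 1 / 2 * η := mul_le_mul h1 he (abs_nonneg _) (by norm_num)
  have h5 : |w * e| = w * |e| := by rw [abs_mul, abs_of_nonneg h0]
  have h6 := abs_le.mp (le_of_eq h5)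
  rw [abs_le]
  constructor <;> nlinarith

end VARM

open VARM in
/-- VAR -/
theorem specVAR : SpecVAR := by
  intro W w e q m a b η hab hm hw he hW hη hw2 hWb
  rcases eq_or_ne q 0 with hq | hq
  · -- `q = 0`
    subst hq
    have hη0 : 0 ≤ η := (abs_nonneg _).trans (hη a ⟨le_rfl, hab⟩)
    have hbound : ∫ t in a..b, |w t * ((0 : ℝ[X]).eval t + e t)| ≤ ∫ _t in a..b, η := by
      refine intervalIntegral.integral_mono_on hab ?_ intervalIntegrable_const ?_
      · refine ContinuousOn.intervalIntegrable ?_
        rw [Set.uIcc_of_le hab]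
        simp only [eval_zero, zero_add]
        exact (hw.mul he).abs
      · intro t ht
        rw [eval_zero, zero_add, abs_mul, abs_of_nonneg (hw2 t ht).1]
        have h1 := mul_le_mul (hw2 t ht).2 (hη t ht) (abs_nonneg _) (by norm_num : (0 : ℝ) ≤ 1 / 2)
        linarith
    rw [intervalIntegral.integral_const, smul_eq_mul] at hbound
    have h2 : 0 ≤ ((m : ℝ) + 1) * (Real.pi / 2) := by positivity
    linarith
  -- `q ≠ 0`
  have main : ∀ N : ℕ, ∀ c d : ℝ, c ≤ d → a ≤ c → d ≤ b → (rt q c d).card = N →
      ∫ t in c..d, |w t * (q.eval t + e t)| ≤ ((N : ℝ) + 1) * (Real.pi / 2) + η * (d - c) := by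
    intro N
    induction N using Nat.strong_induction_on with
    | _ N ih =>
      intro c d hcd hac hdb hN
      have hsub : Set.Icc c d ⊆ Set.Icc a b := Set.Icc_subset_Icc hac hdb
      have hcontF : ContinuousOn (fun t => w t * (q.eval t + e t)) (Set.Icc a b) :=
        hw.mul (q.continuous.continuousOn.add he)
      have hint : ∀ s r, s ≤ r → a ≤ s → r ≤ b →
          IntervalIntegrable (fun t => w t * (q.eval t + e t)) volume s r := by
        intro s r hsr h1 h2
        refine ContinuousOn.intervalIntegrable ?_
        rw [Set.uIcc_of_le hsr]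
        exact hcontF.mono (Set.Icc_subset_Icc h1 h2)
      have hintabs : ∀ s r, s ≤ r → a ≤ s → r ≤ b →
          IntervalIntegrable (fun t => |w t * (q.eval t + e t)|) volume s r := by
        intro s r hsr h1 h2
        exact (hint s r hsr h1 h2).abs
      have hpi := Real.pi_pos
      have hη0 : 0 ≤ η := (abs_nonneg _).trans (hη a ⟨le_rfl, hab⟩)
      rcases eq_or_lt_of_le hcd with heq | hlt
      · subst heq
        rw [intervalIntegral.integral_same]
        have : 0 ≤ ((N : ℝ) + 1) * (Real.pi / 2) := by positivity
        simp only [sub_self, mul_zero, add_zero]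
        exact this
      by_cases hemp : rt q c d = ∅
      · -- no roots
        have hN0 : N = 0 := by rw [← hN, hemp, Finset.card_empty]
        subst hN0
        have hftc : ∫ t in c..d, w t * (q.eval t + e t) = W d - W c :=
          intervalIntegral.integral_eq_sub_of_hasDerivAt (f := W) (fun t ht => by
            rw [Set.uIcc_of_le hcd] at ht
            exact hW t (hsub ht)) (hint c d hcd hac hdb)
        have hWc := hWb c (hsub ⟨le_rfl, hcd⟩)
        have hWd := hWb d (hsub ⟨hcd, le_rfl⟩)
        rcases const_sign hq hlt hemp with hs | hs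
        · have h1 : ∫ t in c..d, |w t * (q.eval t + e t)| ≤
              ∫ t in c..d, (w t * (q.eval t + e t) + η) := by
            refine intervalIntegral.integral_mono_on hcd (hintabs c d hcd hac hdb)
              ((hint c d hcd hac hdb).add intervalIntegrable_const) ?_
            intro t ht
            exact point (hw2 t (hsub ht)).1 (hw2 t (hsub ht)).2 (hη t (hsub ht)) (hs t ht)
          rw [intervalIntegral.integral_add (hint c d hcd hac hdb) intervalIntegrable_const, hftc,
            intervalIntegral.integral_const, smul_eq_mul] at h1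
          push_cast
          linarith [hWc.1, hWc.2, hWd.1, hWd.2]
        · have hneg : IntervalIntegrable (fun t => -(w t * (q.eval t + e t))) volume c d :=
            (hint c d hcd hac hdb).neg
          have h1 : ∫ t in c..d, |w t * (q.eval t + e t)| ≤
              ∫ t in c..d, (-(w t * (q.eval t + e t)) + η) := by
            refine intervalIntegral.integral_mono_on hcd (hintabs c d hcd hac hdb)
              (hneg.add intervalIntegrable_const) ?_
            intro t ht
            have h2 := point (η := η) (e := -e t) (q := -q.eval t) (hw2 t (hsub ht)).1 (hw2 t (hsub ht)).2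
              (by rw [abs_neg]; exact hη t (hsub ht)) (by linarith [hs t ht])
            have h3 : w t * (-q.eval t + -e t) = -(w t * (q.eval t + e t)) := by ring
            rw [h3, abs_neg] at h2
            exact h2
          rw [intervalIntegral.integral_add hneg intervalIntegrable_const,
            intervalIntegral.integral_neg, hftc, intervalIntegral.integral_const,
            smul_eq_mul] at h1
          push_cast
          linarith [hWc.1, hWc.2, hWd.1, hWd.2]
      · -- split at a root
        obtain ⟨x, hx⟩ := Finset.nonempty_iff_ne_empty.mpr hemp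
        obtain ⟨hx0, hcx, hxd⟩ := (mem_rt hq).1 hx
        have hun : rt q c x ∪ rt q x d ⊆ (rt q c d).erase x := by
          intro y hy
          rw [Finset.mem_union, mem_rt hq, mem_rt hq] at hy
          rw [Finset.mem_erase, mem_rt hq]
          rcases hy with ⟨h1, h2, h3⟩ | ⟨h1, h2, h3⟩
          · exact ⟨h3.ne, h1, h2, h3.trans hxd⟩
          · exact ⟨h2.ne', h1, hcx.trans h2, h3⟩
        have hdisj : Disjoint (rt q c x) (rt q x d) := by
          rw [Finset.disjoint_left]
          intro y h1 h2
          rw [mem_rt hq] at h1 h2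
          linarith [h1.2.2, h2.2.1]
        have hcard : (rt q c x).card + (rt q x d).card + 1 ≤ N := by
          have h1 := Finset.card_le_card hun
          rw [Finset.card_union_of_disjoint hdisj, Finset.card_erase_of_mem hx, hN] at h1
          have h2 : 0 < N := by rw [← hN]; exact Finset.card_pos.mpr ⟨x, hx⟩
          omega
        have i1 := ih (rt q c x).card (by omega) c x hcx.le hac (by linarith) rfl
        have i2 := ih (rt q x d).card (by omega) x d hxd.le (by linarith) hdb rfl
        have hsplit := intervalIntegral.integral_add_adjacent_intervals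
          (hintabs c x hcx.le hac (by linarith)) (hintabs x d hxd.le (by linarith) hdb)
        have hcardR : ((rt q c x).card : ℝ) + ((rt q x d).card : ℝ) + 1 ≤ N := by
          exact_mod_cast hcard
        rw [← hsplit]
        have h5 : (((rt q c x).card : ℝ) + ((rt q x d).card : ℝ) + 1) * (Real.pi / 2) ≤
            N * (Real.pi / 2) := mul_le_mul_of_nonneg_right hcardR (by positivity)
        nlinarith [i1, i2, h5]
  have h1 := main (rt q a b).card a b hab le_rfl le_rfl rfl
  have h2 : ((rt q a b).card : ℝ) ≤ m := by exact_mod_cast (card_rt q a b).trans hm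
  have h3 : (((rt q a b).card : ℝ) + 1) * (Real.pi / 2) ≤ ((m : ℝ) + 1) * (Real.pi / 2) := by
    have := Real.pi_pos
    gcongr
  linarith

end Pool.Agent.Lib.MP684ec1.MD
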