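import Pool.Agent.Lib.MP_684ec1_an.MD.Spec

/-!
# MP_684ec1, module VOL: the area of the squares which are not clean
-/

set_option autoImplicit false

namespace Pool.Agent.Lib.MP684ec1.MD

open Complex Polynomial MeasureTheory intervalIntegral
open Pool.Agent.Lib.MP684ec1.HP

namespace VOLM

lemma measurable_fl (k : ℕ) : Measurable (fl k) := by
  have h1 : Measurable fun z : ℂ => ⌊(2 : ℝ) ^ k * z.re⌋ :=
    Int.measurable_floor.comp (measurable_const.mul Complex.measurable_re)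
  have h2 : Measurable fun z : ℂ => ⌊(2 : ℝ) ^ k * z.im⌋ :=
    Int.measurable_floor.comp (measurable_const.mul Complex.measurable_im)
  exact h1.prodMk h2

lemma measurable_Dk (p : ℂ[X]) (k : ℕ) : MeasurableSet (Dk p k) := by
  have h1 : MeasurableSet {z : ℂ | ‖z‖ ≤ 1} := measurableSet_le measurable_norm measurable_const
  have h2 : MeasurableSet (fl k ⁻¹' {a : ℤ × ℤ | ¬ Cl p k a}) :=
    measurable_fl k (Set.to_countable _).measurableSet
  exact h1.inter h2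

lemma floor_mem (k : ℕ) (x : ℝ) (hx : |x| ≤ 1) :
    ⌊(2 : ℝ) ^ k * x⌋ ∈ Set.Icc (-(2 ^ k : ℤ)) (2 ^ k) := by
  obtain ⟨h1, h2⟩ := abs_le.mp hx
  have hp : (0 : ℝ) < 2 ^ k := by positivity
  constructor
  · rw [Int.le_floor]
    push_cast
    nlinarith
  · have h3 : (⌊(2 : ℝ) ^ k * x⌋ : ℝ) ≤ 2 ^ k * x := Int.floor_le _
    have h4 : (⌊(2 : ℝ) ^ k * x⌋ : ℝ) ≤ ((2 ^ k : ℤ) : ℝ) := by
      push_cast
      nlinarith
    exact_mod_cast h4

lemma finite_Un (p : ℂ[X]) (k : ℕ) : (Un p k).Finite := by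
  refine Set.Finite.subset ((Set.finite_Icc (-(2 ^ k : ℤ)) (2 ^ k)).prod
    (Set.finite_Icc (-(2 ^ k : ℤ)) (2 ^ k))) ?_
  rintro a ⟨_, z, hz, rfl⟩
  exact ⟨floor_mem k _ ((Complex.abs_re_le_norm z).trans hz),
    floor_mem k _ ((Complex.abs_im_le_norm z).trans hz)⟩

lemma volume_sq (k : ℕ) (a : ℤ × ℤ) :
    volume (fl k ⁻¹' {a}) = ENNReal.ofReal (1 / 4 ^ k) := by
  have hp : (0 : ℝ) < 2 ^ k := by positivity
  have hiff : ∀ (x : ℝ) (m : ℤ), ⌊(2 : ℝ) ^ k * x⌋ = m ↔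
      x ∈ Set.Ico ((m : ℝ) / 2 ^ k) (((m : ℝ) + 1) / 2 ^ k) := by
    intro x m
    rw [Int.floor_eq_iff, Set.mem_Ico, div_le_iff₀ hp, lt_div_iff₀ hp, mul_comm x]
  have hset : fl k ⁻¹' {a} = Complex.measurableEquivRealProd ⁻¹'
      (Set.Ico ((a.1 : ℝ) / 2 ^ k) (((a.1 : ℝ) + 1) / 2 ^ k) ×ˢ
        Set.Ico ((a.2 : ℝ) / 2 ^ k) (((a.2 : ℝ) + 1) / 2 ^ k)) := by
    ext z
    rw [Set.mem_preimage, Set.mem_singleton_iff, Set.mem_preimage, Set.mem_prod,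
      Complex.measurableEquivRealProd_apply, ← hiff, ← hiff, Prod.ext_iff]
    rfl
  rw [hset, Complex.volume_preserving_equiv_real_prod.measure_preimage
    (measurableSet_Ico.prod measurableSet_Ico).nullMeasurableSet, Measure.volume_eq_prod,
    Measure.prod_prod, Real.volume_Ico, Real.volume_Ico]
  have h1 : ∀ m : ℤ, ((m : ℝ) + 1) / 2 ^ k - (m : ℝ) / 2 ^ k = 1 / 2 ^ k := by
    intro m
    ring
  rw [h1, h1, ← ENNReal.ofReal_mul (by positivity)]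
  congr 1
  rw [div_mul_div_comm, one_mul, ← mul_pow]
  norm_num

end VOLM

open VOLM in
theorem specVOL : SpecVOL := by
  intro p k
  refine ⟨measurable_Dk p k, ?_⟩
  have hfin := finite_Un p k
  have hsub : Dk p k ⊆ ⋃ a ∈ hfin.toFinset, fl k ⁻¹' {a} := by
    rintro z ⟨hz1, hz2⟩
    rw [Set.mem_iUnion₂]
    exact ⟨fl k z, hfin.mem_toFinset.mpr ⟨hz2, z, hz1, rfl⟩, rfl⟩
  calc volume (Dk p k) ≤ volume (⋃ a ∈ hfin.toFinset, fl k ⁻¹' {a}) := measure_mono hsub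
    _ ≤ ∑ a ∈ hfin.toFinset, volume (fl k ⁻¹' {a}) := measure_biUnion_finset_le _ _
    _ = ∑ _a ∈ hfin.toFinset, ENNReal.ofReal (1 / 4 ^ k) :=
        Finset.sum_congr rfl fun a _ => volume_sq k a
    _ = ENNReal.ofReal (((Un p k).ncard : ℝ) / 4 ^ k) := by
        rw [Finset.sum_const, nsmul_eq_mul, Set.ncard_eq_toFinset_card _ hfin,
          ← ENNReal.ofReal_natCast, ← ENNReal.ofReal_mul (Nat.cast_nonneg _), mul_one_div]

end Pool.Agent.Lib.MP684ec1.MD
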