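import Pool.Agent.Lib.MP_684ec1_an.MD.Spec

/-!
# MP_684ec1, module WHI: the Whitney decomposition
-/

set_option autoImplicit false

namespace Pool.Agent.Lib.MP684ec1.MD

open Complex Polynomial MeasureTheory Set
open Pool.Agent.Lib.MP684ec1.HP

namespace WHIM

lemma sph_nonneg (p : ℂ[X]) (z : ℂ) : 0 ≤ sph p z := by
  unfold sph
  positivity

lemma sph_cont (p : ℂ[X]) : Continuous (sph p) := by
  unfold sph
  refine Continuous.div p.derivative.continuous.norm
    (continuous_const.add (p.continuous.norm.pow 2)) fun z => ?_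
  positivity

lemma sph_int {S : Set ℂ} (p : ℂ[X]) (R : ℝ) (hS : S ⊆ Metric.closedBall 0 R) :
    IntegrableOn (sph p) S :=
  ((sph_cont p).continuousOn.integrableOn_compact (isCompact_closedBall 0 R)).mono_set hS

/-- a level set of `fl` -/
def Q (k : ℕ) (a : ℤ × ℤ) : Set ℂ := {z : ℂ | fl k z = a}

lemma Q_meas (k : ℕ) (a : ℤ × ℤ) : MeasurableSet (Q k a) := by
  have h1 : Measurable fun z : ℂ => ⌊(2 : ℝ) ^ k * z.re⌋ :=
    Int.measurable_floor.comp (measurable_const.mul Complex.measurable_re)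
  have h2 : Measurable fun z : ℂ => ⌊(2 : ℝ) ^ k * z.im⌋ :=
    Int.measurable_floor.comp (measurable_const.mul Complex.measurable_im)
  exact (h1.prodMk h2) (measurableSet_singleton a)

lemma abs_le_floor (k : ℕ) (x : ℝ) : |x| ≤ |(⌊(2 : ℝ) ^ k * x⌋ : ℝ)| + 1 := by
  have hk : (1 : ℝ) ≤ 2 ^ k := one_le_pow₀ (by norm_num)
  have h1 := Int.floor_le ((2 : ℝ) ^ k * x)
  have h2 := Int.lt_floor_add_one ((2 : ℝ) ^ k * x)
  have h3 : |x| ≤ |(2 : ℝ) ^ k * x| := by
    rw [abs_mul, abs_of_pos (lt_of_lt_of_le one_pos hk)]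
    exact le_mul_of_one_le_left (abs_nonneg x) hk
  refine h3.trans ?_
  have h4 := neg_abs_le (⌊(2 : ℝ) ^ k * x⌋ : ℝ)
  have h5 := le_abs_self (⌊(2 : ℝ) ^ k * x⌋ : ℝ)
  rw [abs_le]
  constructor <;> linarith

lemma Q_bdd (k : ℕ) (a : ℤ × ℤ) :
    Q k a ⊆ Metric.closedBall 0 (|(a.1 : ℝ)| + |(a.2 : ℝ)| + 2) := by
  rintro z rfl
  rw [mem_closedBall_zero_iff]
  refine (Complex.norm_le_abs_re_add_abs_im z).trans ?_
  have h1 := abs_le_floor k z.re
  have h2 := abs_le_floor k z.im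
  simp only [fl]
  linarith

lemma Q_int (p : ℂ[X]) (k : ℕ) (a : ℤ × ℤ) : IntegrableOn (sph p) (Q k a) :=
  sph_int p _ (Q_bdd k a)

lemma cover (p : ℂ[X]) (k : ℕ) (R : ℝ) (D : Set ℂ) (hD : D ⊆ Metric.closedBall 0 R) (B : ℝ) :
    ∀ (t : Finset (ℤ × ℤ)) (S : Set ℂ), S ⊆ Metric.closedBall 0 R →
      (∀ z ∈ S, fl k z ∈ t ∨ z ∈ D) → (∀ a ∈ t, ∫ z in Q k a, sph p z ≤ B) →
      ∫ z in S, sph p z ≤ t.card * B + ∫ z in D, sph p z := by
  intro t
  induction t using Finset.induction_on with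
  | empty =>
    intro S _ h _
    rw [Finset.card_empty, Nat.cast_zero, zero_mul, zero_add]
    refine setIntegral_mono_set (sph_int p R hD) (Filter.Eventually.of_forall (sph_nonneg p)) ?_
    exact Filter.Eventually.of_forall fun z hz => (h z hz).resolve_left (Finset.notMem_empty _)
  | insert b t hb ih =>
    intro S hSR h hB
    rw [← integral_inter_add_sdiff (Q_meas k b) (sph_int p R hSR), Finset.card_insert_of_notMem hb]
    have h1 : ∫ z in S ∩ Q k b, sph p z ≤ B := by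
      refine le_trans ?_ (hB b (Finset.mem_insert_self b t))
      refine setIntegral_mono_set (Q_int p k b) (Filter.Eventually.of_forall (sph_nonneg p)) ?_
      exact Filter.Eventually.of_forall fun z hz => hz.2
    have h2 := ih (S \ Q k b) (fun z hz => hSR hz.1) (fun z hz => by
      rcases h z hz.1 with h | h
      · rcases Finset.mem_insert.1 h with h | h
        · exact absurd h hz.2
        · exact Or.inl h
      · exact Or.inr h) (fun a ha => hB a (Finset.mem_insert_of_mem ha))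
    push_cast
    linarith

lemma Dk_sub (p : ℂ[X]) (k : ℕ) : Dk p k ⊆ Metric.closedBall 0 1 := by
  intro z hz
  rw [mem_closedBall_zero_iff]
  exact hz.1

lemma floor_mem (k : ℕ) (x : ℝ) (hx : |x| ≤ 1) :
    ⌊(2 : ℝ) ^ k * x⌋ ∈ Finset.Icc (-2 ^ k : ℤ) (2 ^ k) := by
  have hk : (0 : ℝ) < 2 ^ k := by positivity
  obtain ⟨h1, h2⟩ := abs_le.1 hx
  rw [Finset.mem_Icc]
  constructor
  · rw [Int.le_floor]
    push_cast
    nlinarith
  · have h3 : ((⌊(2 : ℝ) ^ k * x⌋ : ℤ) : ℝ) ≤ ((2 ^ k : ℤ) : ℝ) := by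
      refine (Int.floor_le _).trans ?_
      push_cast
      nlinarith
    exact_mod_cast h3

lemma fl_mem (k : ℕ) (z : ℂ) (hz : ‖z‖ ≤ 1) :
    fl k z ∈ Finset.Icc (-2 ^ k : ℤ) (2 ^ k) ×ˢ Finset.Icc (-2 ^ k : ℤ) (2 ^ k) :=
  Finset.mem_product.2 ⟨floor_mem k _ ((Complex.abs_re_le_norm z).trans hz),
    floor_mem k _ ((Complex.abs_im_le_norm z).trans hz)⟩

lemma Un_fin (p : ℂ[X]) (k : ℕ) : (Un p k).Finite := by
  refine (Finset.finite_toSet
    (Finset.Icc (-2 ^ k : ℤ) (2 ^ k) ×ˢ Finset.Icc (-2 ^ k : ℤ) (2 ^ k))).subset ?_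
  rintro a ⟨-, z, hz, rfl⟩
  exact fl_mem k z hz

lemma floor_step (m : ℕ) (x : ℝ) : ∃ i ∈ Finset.range 2,
    ⌊(2 : ℝ) ^ (m + 1) * x⌋ = 2 * ⌊(2 : ℝ) ^ m * x⌋ + (i : ℤ) := by
  have h1 := Int.floor_le ((2 : ℝ) ^ m * x)
  have h2 := Int.lt_floor_add_one ((2 : ℝ) ^ m * x)
  set n := ⌊(2 : ℝ) ^ m * x⌋
  rcases lt_or_ge ((2 : ℝ) ^ (m + 1) * x) (2 * n + 1) with h | h
  · refine ⟨0, by simp, ?_⟩
    rw [Int.floor_eq_iff]
    push_cast
    rw [pow_succ] at h ⊢
    constructor <;> linarith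
  · refine ⟨1, by simp, ?_⟩
    rw [Int.floor_eq_iff]
    push_cast
    rw [pow_succ] at h ⊢
    constructor <;> linarith

lemma Bn_nonneg (p : ℂ[X]) : 0 ≤ Bn p := by
  unfold Bn
  positivity

end WHIM

open WHIM in
theorem specWHI (hSQR : SpecSQR) : SpecWHI := by
  classical
  intro p m hp
  have hB := Bn_nonneg p
  induction m with
  | zero =>
    rw [Finset.range_zero, Finset.sum_empty, add_zero]
    set t : Finset (ℤ × ℤ) := (Finset.Icc (-2 ^ 0 : ℤ) (2 ^ 0) ×ˢ
      Finset.Icc (-2 ^ 0 : ℤ) (2 ^ 0)).filter fun a => Cl p 0 a with ht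
    have hcard : t.card ≤ 9 := by
      refine (Finset.card_filter_le _ _).trans ?_
      rw [Finset.card_product]
      simp
    have h1 := cover p 0 1 (Dk p 0) (Dk_sub p 0) (Bn p) t (Metric.closedBall 0 1) subset_rfl
      (fun z hz => by
        rw [mem_closedBall_zero_iff] at hz
        by_cases h : Cl p 0 (fl 0 z)
        · exact Or.inl (Finset.mem_filter.2 ⟨fl_mem 0 z hz, h⟩)
        · exact Or.inr ⟨hz, h⟩)
      (fun a ha => by
        have h2 := hSQR p 0 a hp (Finset.mem_filter.1 ha).2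
        rw [pow_zero, div_one] at h2
        exact h2)
    refine h1.trans ?_
    have h3 : (t.card : ℝ) ≤ 9 := by exact_mod_cast hcard
    have h4 := mul_le_mul_of_nonneg_right h3 hB
    linarith
  | succ m ih =>
    rw [Finset.sum_range_succ]
    set U : Finset (ℤ × ℤ) := (Un_fin p m).toFinset with hU
    set t : Finset (ℤ × ℤ) := ((U ×ˢ (Finset.range 2 ×ˢ Finset.range 2)).image
      fun x => (2 * x.1.1 + (x.2.1 : ℤ), 2 * x.1.2 + (x.2.2 : ℤ))).filter
        fun a => Cl p (m + 1) a with ht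
    have hcard : t.card ≤ 4 * (Un p m).ncard := by
      refine (Finset.card_filter_le _ _).trans (Finset.card_image_le.trans ?_)
      have h0 : (Un p m).ncard = U.card := Set.ncard_eq_toFinset_card _ (Un_fin p m)
      rw [Finset.card_product, Finset.card_product, Finset.card_range, h0]
      omega
    have h1 := cover p (m + 1) 1 (Dk p (m + 1)) (Dk_sub p (m + 1)) (Bn p / 2 ^ (m + 1)) t (Dk p m)
      (Dk_sub p m)
      (fun z hz => by
        by_cases h : Cl p (m + 1) (fl (m + 1) z)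
        · refine Or.inl (Finset.mem_filter.2 ⟨?_, h⟩)
          obtain ⟨i, hi, hi'⟩ := floor_step m z.re
          obtain ⟨j, hj, hj'⟩ := floor_step m z.im
          refine Finset.mem_image.2 ⟨(fl m z, (i, j)), ?_, ?_⟩
          · refine Finset.mem_product.2 ⟨?_, Finset.mem_product.2 ⟨hi, hj⟩⟩
            exact (Un_fin p m).mem_toFinset.2 ⟨hz.2, z, hz.1, rfl⟩
          · exact Prod.ext hi'.symm hj'.symm
        · exact Or.inr ⟨hz.1, h⟩)
      (fun a ha => hSQR p (m + 1) a hp (Finset.mem_filter.1 ha).2)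
    have h3 : (t.card : ℝ) ≤ 4 * (Un p m).ncard := by exact_mod_cast hcard
    have h4 : (0 : ℝ) ≤ Bn p / 2 ^ (m + 1) := by positivity
    have h5 := mul_le_mul_of_nonneg_right h3 h4
    have h6 : 4 * ((Un p m).ncard : ℝ) * (Bn p / 2 ^ (m + 1)) =
        2 * Bn p * ((Un p m).ncard : ℝ) / 2 ^ m := by
      rw [pow_succ]
      field_simp
      ring
    rw [h6] at h5
    linarith

end Pool.Agent.Lib.MP684ec1.MD

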