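import Pool.Agent.Lib.MP_684ec1_an.MD.TAY
import Pool.Agent.Lib.MP_684ec1_an.MD.VAR
import Pool.Agent.Lib.MP_684ec1_an.MD.SEG
import Pool.Agent.Lib.MP_684ec1_an.MD.SQR
import Pool.Agent.Lib.MP_684ec1_an.MD.ARE
import Pool.Agent.Lib.MP_684ec1_an.MD.CSA
import Pool.Agent.Lib.MP_684ec1_an.MD.WHI
import Pool.Agent.Lib.MP_684ec1_an.MD.CNB
import Pool.Agent.Lib.MP_684ec1_an.MD.VOL
import Pool.Agent.Lib.MP_684ec1_an.MD.FIN

/-!
# MP_684ec1, MD: assembly
-/

set_option autoImplicit false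

namespace Pool.Agent.Lib.MP684ec1.MD

theorem allSQR : SpecSQR := specSQR (specSEG specTAY specVAR)

theorem allFIN : SpecFIN := specFIN (specCSA specARE) (specWHI allSQR) specCNB specVOL

end Pool.Agent.Lib.MP684ec1.MD
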