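import Pool.Agent.Lib.MP_684ec1_an.HP.Spec

/-!
# MP_684ec1: Littlewood's integral and the box dimension of the zeros. Definitions and exact statements

THEOREM (`Results/MP_684ec1_an/ZeroDimension.lean`). There is an absolute constant `C` with: if `1 ≤ d ≤ 2`, `A ≥ 1`, and for every `k ≥ 0` the zeros
of the polynomial `p` of degree `n ≥ 1` with `|z| ≤ 4` lie in at most `A 2^(dk)` squares of the grid of mesh `2^(-k)`, then
`P(p) = ∫_D |p'|/(1+|p|²) ≤ C A n^(1 - 1/d) (1 + log n)²`. (Trivial for `d = 2`; `(log n)²` for zeros on a fixed rectifiable curve.)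

Module `XXX` is the file `MD/XXX.lean` with `theorem specXXX (hYYY : SpecYYY) .. : SpecXXX` (the modules named after USES, in this
order) in the namespace `Pool.Agent.Lib.MP684ec1.MD`, own lemmas in the namespace `XXXM`. Every module imports only
`Pool.Agent.Lib.MP_684ec1_an.MD.Spec`. All proofs below are complete.

IDEA. `W = arctan |p|`, `|∇W| = |p'|/(1+|p|²)`, `∇W` is `w conj f`, `f = p'/p`. In a square whose neighbourhood contains no zero `f` is, up to an error `≤ 1/side`, a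
polynomial of degree `log n`; so on every horizontal and vertical segment `W` has variation `O(log n)`, and the integral over the square is
`O(side · log n)`. Whitney decomposition off the zeros down to the side `n^(-1/d)`; the rest has a small area and is estimated by Cauchy-Schwarz
and the area of the image (`≤ n` times the sphere).
-/

set_option autoImplicit false

namespace Pool.Agent.Lib.MP684ec1.MD

open Complex Polynomial MeasureTheory intervalIntegral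
open Pool.Agent.Lib.MP684ec1.HP

noncomputable section

/-! ## Definitions (`sph`, `lg`, `wt`, `Wa` are in `HP/Spec.lean`) -/

/-- the index of the square of mesh `2^(-k)` which contains `z` -/
def fl (k : ℕ) (z : ℂ) : ℤ × ℤ := (⌊(2 : ℝ) ^ k * z.re⌋, ⌊(2 : ℝ) ^ k * z.im⌋)

/-- no zero in the `3 × 3` block around the square `a` -/
def Cl (p : ℂ[X]) (k : ℕ) (a : ℤ × ℤ) : Prop :=
  ∀ z : ℂ, p.eval z = 0 → ¬ (|(fl k z).1 - a.1| ≤ 1 ∧ |(fl k z).2 - a.2| ≤ 1)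

/-- the squares which contain zeros with `|z| ≤ 4` -/
def Bx (p : ℂ[X]) (k : ℕ) : Set (ℤ × ℤ) := {a | ∃ z : ℂ, p.eval z = 0 ∧ ‖z‖ ≤ 4 ∧ fl k z = a}

/-- the squares which meet the closed unit disc and are not clean -/
def Un (p : ℂ[X]) (k : ℕ) : Set (ℤ × ℤ) := {a | ¬ Cl p k a ∧ ∃ z : ℂ, ‖z‖ ≤ 1 ∧ fl k z = a}

/-- their union, in the closed unit disc -/
def Dk (p : ℂ[X]) (k : ℕ) : Set ℂ := {z | ‖z‖ ≤ 1 ∧ ¬ Cl p k (fl k z)}

/-- the constant of the clean squares -/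
def Bn (p : ℂ[X]) : ℝ := ((Nat.clog 2 p.natDegree : ℝ) + 1) * Real.pi + 4

/-! ## Statements -/

/-- **TAY** (100 lines). `p'/p` is almost a polynomial far from the zeros.
PROOF. `p'/p = ∑ 1/(z - ζ)` over the roots with multiplicity; `1/(z - ζ) = - ∑_(j<m) (z - z₀)^j (ζ - z₀)^(-j-1) + E`, `E = (z - z₀)^m/((ζ - z₀)^m (z - ζ))`,
`|E| ≤ 2^(-m) / |z - ζ| ≤ 2^(-m)/r`. `T = - ∑_ζ ∑_(j<m) (ζ - z₀)^(-j-1) (X - z₀)^j`. -/
def SpecTAY : Prop := ∀ (p : ℂ[X]) (z₀ : ℂ) (r : ℝ) (m : ℕ), p ≠ 0 → 0 < r → (∀ z : ℂ, p.eval z = 0 → 2 * r ≤ ‖z - z₀‖) →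
  ∃ T : ℂ[X], T.natDegree ≤ m ∧ ∀ z : ℂ, ‖z - z₀‖ ≤ r → p.eval z ≠ 0 ∧ ‖lg p z - T.eval z‖ ≤ p.natDegree * (1 / 2) ^ m / r

/-- **VAR** (150 lines). Few sign changes, up to a small error.
PROOF. If `q = 0`: `≤ (1/2) η (b - a)`. Let `q ≠ 0`. Pointwise `|w (q + e)| ≤ sign(q) w (q + e) + 2 w |e|` and `2 w |e| ≤ η`. It remains to prove
`∫_a^b sign(q) W' ≤ (N + 1) π/2` if `q` has `N` (distinct) roots in `(a, b)` (`N ≤ m`), by induction on `N`: for `N = 0` `sign(q)` is constant on `(a, b)`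
(intermediate values) and the integral is `±(W b - W a)`; for `N > 0` split at a root `c ∈ (a, b)`; the numbers for `(a, c)` and `(c, b)` add up to `N - 1`. -/
def SpecVAR : Prop := ∀ (W w e : ℝ → ℝ) (q : ℝ[X]) (m : ℕ) (a b η : ℝ), a ≤ b → q.natDegree ≤ m → ContinuousOn w (Set.Icc a b) →
  ContinuousOn e (Set.Icc a b) → (∀ t ∈ Set.Icc a b, HasDerivAt W (w t * (q.eval t + e t)) t) → (∀ t ∈ Set.Icc a b, |e t| ≤ η) →
  (∀ t ∈ Set.Icc a b, 0 ≤ w t ∧ w t ≤ 1 / 2) → (∀ t ∈ Set.Icc a b, 0 ≤ W t ∧ W t ≤ Real.pi / 2) →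
  ∫ t in a..b, |w t * (q.eval t + e t)| ≤ ((m : ℝ) + 1) * (Real.pi / 2) + η * (b - a)

/-- **SEG** (150 lines), USES TAY, VAR. Variation of `W` on a segment.
PROOF. TAY gives `T`; `q = ∑_j Re (coefficient j of (T (c + v X) v)) X^j` is a real polynomial of degree `≤ m`, `q t = Re (T(c + t v) v)`, `e t = Re ((lg p - T)(c + t v) v)`,
`|e| ≤ n 2^(-m)/r`; `W t = arctan |p (c + t v)|` has the derivative `wt · Re (lg · v)` (`p ≠ 0` on the segment, so `|p|` is differentiable), `wt ≤ 1/2`. Apply VAR. -/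
def SpecSEG : Prop := ∀ (p : ℂ[X]) (z₀ c v : ℂ) (r a b : ℝ) (m : ℕ), p ≠ 0 → 0 < r → (∀ z : ℂ, p.eval z = 0 → 2 * r ≤ ‖z - z₀‖) →
  ‖v‖ = 1 → a ≤ b → (∀ t ∈ Set.Icc a b, ‖c + t * v - z₀‖ ≤ r) →
  ∫ t in a..b, |((wt p (c + t * v) : ℂ) * lg p (c + t * v) * v).re| ≤
    ((m : ℝ) + 1) * (Real.pi / 2) + (p.natDegree * (1 / 2) ^ m / r) * (b - a)

/-- **SQR** (200 lines), USES SEG. Clean squares.
PROOF. Let `s = 2^(-k)`, the square is `[a₁ s, (a₁+1) s) × [a₂ s, (a₂+1) s)`, `z₀` its centre, `r = s/√2`: it is contained in the closed disc of radius `r`, and every zero `z`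
has `|Re (z - z₀)| ≥ 3 s/2` or `|Im (z - z₀)| ≥ 3 s/2`, so `|z - z₀| ≥ 3 s/2 ≥ √2 s = 2 r`. With `g = wt · lg`, `|g| = sph`
(`p ≠ 0` on the square), `sph ≤ |Re g| + |Re (g I)|`; Fubini (`Complex.volume_preserving_equiv_real_prod` or so) and SEG with `m = Nat.clog 2 n` (`n 2^(-m) ≤ 1`), `v = 1`
on the horizontal and `v = I` on the vertical lines: `≤ 2 s ((m + 1) π/2 + √2) ≤ s Bn`. -/
def SpecSQR : Prop := ∀ (p : ℂ[X]) (k : ℕ) (a : ℤ × ℤ), 0 < p.natDegree → Cl p k a →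
  ∫ z in {z : ℂ | fl k z = a}, sph p z ≤ Bn p / 2 ^ k

/-- **ARE** (200 lines). The area of the image.
PROOF. On the open set `p' ≠ 0` (complement finite, measure `0`) `p` is locally injective (`HasStrictDerivAt`, `HasStrictDerivAt.toOpenPartialHomeomorph`); by second
countability there are countably many open sets `U_i` on which `p` is injective and which cover it; disjoint measurable `A_i ⊆ U_i` with the same union.
`lintegral_image_eq_lintegral_abs_det_fderiv_mul` (determinant of multiplication by `p'` is `|p'|²`): `∫_(A_i) |p'|²/(1+|p|²)² = ∫_(p(A_i)) 1/(1+|w|²)²`,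
and `∑_i 1_(p(A_i)) ≤ n` (at most `n` preimages). `∫_ℂ (1+|w|²)^(-2) = π` (polar coordinates; `≤ π` is enough). -/
def SpecARE : Prop := ∀ p : ℂ[X], 0 < p.natDegree →
  ∫⁻ z : ℂ, ENNReal.ofReal (sph p z ^ 2) ≤ ENNReal.ofReal (p.natDegree * Real.pi)

/-- **CSA** (80 lines), USES ARE. Cauchy-Schwarz (`A` bounded and measurable, `sph` continuous). -/
def SpecCSA : Prop := ∀ (p : ℂ[X]) (A : Set ℂ) (v : ℝ), 0 < p.natDegree → 0 ≤ v → MeasurableSet A → A ⊆ Metric.closedBall 0 1 →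
  volume A ≤ ENNReal.ofReal v → ∫ z in A, sph p z ≤ Real.sqrt (p.natDegree * Real.pi * v)

/-- **WHI** (200 lines), USES SQR. The Whitney decomposition.
PROOF. Induction on `m`. Integrals of `sph ≥ 0` (continuous), all sets measurable. `m = 0`: the disc minus `Dk 0` is covered by the clean squares of level `0` with
indices in `{-1, 0, 1}²`, at most 9 of them, each `≤ Bn` (SQR). Step: `Dk m` minus `Dk (m+1)` is covered by the clean squares `b` of level `m + 1` with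
`(⌊b₁/2⌋, ⌊b₂/2⌋) ∈ Un m` (`⌊2^m x⌋ = ⌊2^(m+1) x⌋ / 2`, integer division), at most `4 (Un m).ncard` of them, each `≤ Bn / 2^(m+1)`. -/
def SpecWHI : Prop := ∀ (p : ℂ[X]) (m : ℕ), 0 < p.natDegree → ∫ z in Metric.closedBall (0 : ℂ) 1, sph p z ≤
  9 * Bn p + (∑ k ∈ Finset.range m, 2 * Bn p * ((Un p k).ncard : ℝ) / 2 ^ k) + ∫ z in Dk p m, sph p z

/-- **CNB** (120 lines). Number of the squares which are not clean.
PROOF. `p ≠ 0` has finitely many zeros, so `Bx` is finite. If `a ∈ Un k`, `a = fl k z`, `|z| ≤ 1`, there is a zero `ζ` with `|fl k ζ - a|_∞ ≤ 1`; then `|2^k Re (ζ - z)| < 2`, the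
same for `Im`, so `|ζ| ≤ 1 + 2 √2 < 4` and `fl k ζ ∈ Bx`. So `Un ⊆ ⋃_(i, j ∈ {-1,0,1}) (Bx + (i, j))`. -/
def SpecCNB : Prop := ∀ (p : ℂ[X]) (k : ℕ), p ≠ 0 → (Un p k).Finite ∧ (Un p k).ncard ≤ 9 * (Bx p k).ncard

/-- **VOL** (80 lines). The area of `Dk`: it is a union of the `(Un p k).ncard` sets `{fl k z = a}`, each of area `4^(-k)`. (`Un` is finite: `|a_i| ≤ 2^k`.)
Measurable: `fl` is measurable and takes its values in a countable set. -/
def SpecVOL : Prop := ∀ (p : ℂ[X]) (k : ℕ), MeasurableSet (Dk p k) ∧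
  volume (Dk p k) ≤ ENNReal.ofReal (((Un p k).ncard : ℝ) / 4 ^ k)

/-- **FIN** (150 lines), USES CSA, WHI, CNB, VOL. The theorem.
PROOF. Let `m = ⌈log₂ n / d⌉` (natural number), `n^(1/d) ≤ 2^m ≤ 2 n^(1/d)`. By WHI, CNB (`(Un k).ncard ≤ 9 A 2^(dk)`), VOL and CSA
`P ≤ 9 B + ∑_(k<m) 18 A B 2^((d-1)k) + √(π n 9 A 2^(dm) 4^(-m))`, `B = Bn ≤ (log₂ n + 2) π + 4`. As `2^((d-1)k) ≤ 2^((d-1)m) ≤ 2 n^(1-1/d)` (`d - 1 ≤ 1`) and
`n 2^((d-2)m) ≤ n n^((d-2)/d) = (n^(1-1/d))²` (`d ≤ 2`), `P ≤ 9 B + 36 A B m n^(1-1/d) + 3 √(π A) n^(1-1/d)`, and `m ≤ log₂ n + 1`. -/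
def SpecFIN : Prop := ∃ C : ℝ, 0 < C ∧ ∀ (p : ℂ[X]) (A d : ℝ), 0 < p.natDegree → 1 ≤ A → 1 ≤ d → d ≤ 2 →
  (∀ k : ℕ, ((Bx p k).ncard : ℝ) ≤ A * (2 : ℝ) ^ (d * k)) →
  ∫ z in Metric.closedBall (0 : ℂ) 1, sph p z ≤ C * A * (p.natDegree : ℝ) ^ (1 - 1 / d) * (1 + Real.log p.natDegree) ^ 2

end

end Pool.Agent.Lib.MP684ec1.MD
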