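import Pool.Agent.Lib.MP_684ec1_an.MD.Spec

/-!
# TAY: `p'/p` is almost a polynomial far from the zeros
-/

set_option autoImplicit false

namespace Pool.Agent.Lib.MP684ec1.MD

open Complex Polynomial MeasureTheory intervalIntegral
open Pool.Agent.Lib.MP684ec1.HP

namespace TAYM

/-- the Taylor polynomial of one term -/
noncomputable def tp (z₀ ζ : ℂ) (m : ℕ) : ℂ[X] :=
  ∑ j ∈ Finset.range m, C (((ζ - z₀)⁻¹) ^ (j + 1)) * (X - C z₀) ^ j

lemma tp_deg (z₀ ζ : ℂ) (m : ℕ) : (tp z₀ ζ m).natDegree ≤ m := by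
  unfold tp
  refine natDegree_sum_le_of_forall_le _ _ fun j hj => ?_
  refine (natDegree_C_mul_le _ _).trans ?_
  refine natDegree_pow_le.trans ?_
  have h1 : (X - C z₀ : ℂ[X]).natDegree ≤ 1 := natDegree_X_sub_C_le z₀
  have h2 := Finset.mem_range.mp hj
  nlinarith

lemma tp_eval (z₀ ζ z : ℂ) (m : ℕ) :
    (tp z₀ ζ m).eval z = ∑ j ∈ Finset.range m, ((ζ - z₀)⁻¹) ^ (j + 1) * (z - z₀) ^ j := by
  unfold tp
  rw [eval_finset_sum]
  refine Finset.sum_congr rfl fun j _ => ?_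
  simp

lemma geo (w u : ℂ) (hw : w ≠ 0) (m : ℕ) :
    (∑ j ∈ Finset.range m, w⁻¹ ^ (j + 1) * u ^ j) * (w - u) = 1 - (u * w⁻¹) ^ m := by
  induction m with
  | zero => simp
  | succ m ih =>
    rw [Finset.sum_range_succ, add_mul, ih]
    have h1 : w⁻¹ * w = 1 := inv_mul_cancel₀ hw
    have h2 : w⁻¹ ^ (m + 1) * u ^ m * (w - u) = (u * w⁻¹) ^ m - (u * w⁻¹) ^ (m + 1) := by
      rw [mul_pow, mul_pow, pow_succ, pow_succ u]
      linear_combination (w⁻¹ ^ m * u ^ m) * h1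
    rw [h2]
    ring

lemma one (z₀ ζ z : ℂ) (r : ℝ) (m : ℕ) (hr : 0 < r) (h : 2 * r ≤ ‖ζ - z₀‖) (hz : ‖z - z₀‖ ≤ r) :
    ‖1 / (z - ζ) + (tp z₀ ζ m).eval z‖ ≤ (1 / 2) ^ m / r := by
  rw [tp_eval]
  set w := ζ - z₀ with hwdef
  set u := z - z₀ with hudef
  have hw : w ≠ 0 := by
    intro h0
    rw [h0, norm_zero] at h
    linarith
  have hd : r ≤ ‖w - u‖ := by
    have := norm_sub_norm_le w u
    linarith
  have hne : w - u ≠ 0 := by
    intro h0
    rw [h0, norm_zero] at hd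
    linarith
  have e1 : z - ζ = -(w - u) := by
    rw [hwdef, hudef]
    ring
  have e2 : 1 / (z - ζ) + ∑ j ∈ Finset.range m, w⁻¹ ^ (j + 1) * u ^ j =
      -((u * w⁻¹) ^ m / (w - u)) := by
    rw [e1]
    have h3 := geo w u hw m
    have h4 : ∑ j ∈ Finset.range m, w⁻¹ ^ (j + 1) * u ^ j = (1 - (u * w⁻¹) ^ m) / (w - u) := by
      rw [eq_div_iff hne]
      exact h3
    rw [h4]
    field_simp
    ring
  rw [e2, norm_neg, norm_div, norm_pow, norm_mul, norm_inv]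
  have hw0 : 0 < ‖w‖ := norm_pos_iff.mpr hw
  have h5 : ‖u‖ * ‖w‖⁻¹ ≤ 1 / 2 := by
    rw [← div_eq_mul_inv, div_le_iff₀ hw0]
    linarith
  refine div_le_div₀ (by positivity) (pow_le_pow_left₀ (by positivity) h5 m) hr hd

lemma multi (z₀ : ℂ) (r : ℝ) (m : ℕ) (hr : 0 < r) (s : Multiset ℂ) :
    (∀ ζ ∈ s, 2 * r ≤ ‖ζ - z₀‖) → ∃ T : ℂ[X], T.natDegree ≤ m ∧ ∀ z : ℂ, ‖z - z₀‖ ≤ r →
      ‖(s.map fun ζ => 1 / (z - ζ)).sum - T.eval z‖ ≤ s.card * ((1 / 2) ^ m / r) := by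
  induction s using Multiset.induction_on with
  | empty =>
    intro _
    exact ⟨0, by simp, fun z _ => by simp⟩
  | cons ζ s ih =>
    intro h
    obtain ⟨T, hT, hT'⟩ := ih fun ξ hξ => h ξ (Multiset.mem_cons_of_mem hξ)
    refine ⟨T - tp z₀ ζ m, ?_, fun z hz => ?_⟩
    · exact (natDegree_sub_le_of_le hT (tp_deg z₀ ζ m)).trans (by simp)
    · rw [Multiset.map_cons, Multiset.sum_cons, eval_sub, Multiset.card_cons]
      have h1 := hT' z hz
      have h2 := one z₀ ζ z r m hr (h ζ (Multiset.mem_cons_self ζ s)) hz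
      have e : 1 / (z - ζ) + (s.map fun ζ => 1 / (z - ζ)).sum - (T.eval z - (tp z₀ ζ m).eval z) =
          (1 / (z - ζ) + (tp z₀ ζ m).eval z) +
            ((s.map fun ζ => 1 / (z - ζ)).sum - T.eval z) := by ring
      rw [e]
      refine (norm_add_le _ _).trans ?_
      push_cast
      linarith

end TAYM

open TAYM in
theorem specTAY : SpecTAY := by
  intro p z₀ r m hp hr hz0
  have hroots : ∀ ζ ∈ p.roots, 2 * r ≤ ‖ζ - z₀‖ := fun ζ hζ => hz0 ζ ((mem_roots hp).mp hζ)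
  obtain ⟨T, hT, hT'⟩ := multi z₀ r m hr p.roots hroots
  refine ⟨T, hT, fun z hz => ?_⟩
  have hpz : p.eval z ≠ 0 := by
    intro h
    have := hz0 z h
    linarith
  refine ⟨hpz, ?_⟩
  have hlg : lg p z = (p.roots.map fun ζ => 1 / (z - ζ)).sum := by
    unfold lg
    exact (IsAlgClosed.splits p).eval_derivative_div_eval_of_ne_zero hpz
  rw [hlg]
  refine (hT' z hz).trans ?_
  have h1 : (p.roots.card : ℝ) ≤ p.natDegree := by exact_mod_cast card_roots' p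
  rw [mul_div_assoc]
  exact mul_le_mul_of_nonneg_right h1 (by positivity)

end Pool.Agent.Lib.MP684ec1.MD
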